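import Pool.Agent.TH809.TP.Band

set_option autoImplicit false

/-!
# Strictly positive minors after smoothing by `(1 + ε z) ^ K`
-/

namespace Pool.Agent.TH809.TP

open Matrix Finset Filter Topology

theorem mnr_diag_pos {a : ℕ → ℝ} (ha : 0 < a 0) {k : ℕ} {r : Fin k → ℕ} (hr : StrictMono r) :
    0 < mnr a r r := by
  unfold mnr
  rw [Matrix.det_of_isUpperTriangular]
  · apply Finset.prod_pos
    intro i _
    simp [ent, ha]
  · intro i j hij
    have : r j < r i := hr hij
    simp only [Matrix.of_apply, ent]
    rw [if_neg (by omega)]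

theorem mnr_one (a : ℕ → ℝ) (r c : Fin 1 → ℕ) : mnr a r c = ent a (r 0) (c 0) := by
  unfold mnr
  rw [Matrix.det_fin_one]
  rfl

/-- Admissible minors of a bidiagonal matrix are positive. -/
theorem bidiag_pos {ε : ℝ} (hε : 0 < ε) : ∀ (k : ℕ) (r c : Fin k → ℕ), StrictMono r → StrictMono c →
    (∀ s, r s ≤ c s) → (∀ s, c s ≤ r s + 1) → 0 < mnr (lin 1 ε) r c := by
  intro k
  induction k with
  | zero =>
    intro r c _ _ _ _
    simp [mnr]
  | succ k ih =>
    intro r c hr hc h1 h2
    have hlast : 0 < mnr (lin 1 ε) (r ∘ Fin.natAdd k) (c ∘ Fin.natAdd k) := by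
      rw [mnr_one]
      simp only [Function.comp_apply]
      have h3 := h1 (Fin.natAdd k 0)
      have h4 := h2 (Fin.natAdd k 0)
      unfold ent
      rw [if_pos h3]
      unfold lin
      rcases Nat.eq_or_lt_of_le h3 with h5 | h5
      · rw [h5, Nat.sub_self]
        simp
      · have : c (Fin.natAdd k 0) - r (Fin.natAdd k 0) = 1 := by omega
        rw [this]
        simpa using hε
    have hfirst : 0 < mnr (lin 1 ε) (r ∘ Fin.castAdd 1) (c ∘ Fin.castAdd 1) := by
      apply ih
      · intro i j hij
        exact hr (by rw [Fin.lt_def] at hij ⊢; simpa using hij)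
      · intro i j hij
        exact hc (by rw [Fin.lt_def] at hij ⊢; simpa using hij)
      · intro s; exact h1 _
      · intro s; exact h2 _
    by_cases hcase : c (Fin.natAdd k 0) = r (Fin.natAdd k 0)
    · -- last row vanishes to the left of the diagonal
      rw [mnr_split_lower (lin 1 ε) r c]
      · exact mul_pos hfirst hlast
      · intro i j
        have hi : i = 0 := Subsingleton.elim _ _
        subst hi
        have hlt : c (Fin.castAdd 1 j) < c (Fin.natAdd k 0) := by
          apply hc
          rw [Fin.lt_def]
          simp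
        unfold ent
        rw [if_neg (by omega)]
    · -- the last column vanishes above the diagonal
      rw [mnr_split_upper (lin 1 ε) r c]
      · exact mul_pos hfirst hlast
      · intro i j
        have hj : j = 0 := Subsingleton.elim _ _
        subst hj
        have hlt : r (Fin.castAdd 1 i) < r (Fin.natAdd k 0) := by
          apply hr
          rw [Fin.lt_def]
          simp
        have h3 := h1 (Fin.natAdd k 0)
        unfold ent
        rw [if_pos (by omega)]
        unfold lin
        rw [if_neg (by omega), if_neg (by omega)]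

/-- smoothing -/
noncomputable def sm (a : ℕ → ℝ) (ε : ℝ) : ℕ → ℕ → ℝ
  | 0 => a
  | K + 1 => conv (sm a ε K) (lin 1 ε)

theorem sm_TP {a : ℕ → ℝ} (ha : ∀ m, TP m a) {ε : ℝ} (hε : 0 ≤ ε) (K m : ℕ) : TP m (sm a ε K) := by
  induction K with
  | zero => exact ha m
  | succ K ih => exact ih.conv (TP_lin zero_le_one hε m)

theorem sm_pos {a : ℕ → ℝ} (ha : ∀ m, TP m a) (ha0 : 0 < a 0) {ε : ℝ} (hε : 0 < ε) (K : ℕ) :
    ∀ (k : ℕ) (r c : Fin k → ℕ), StrictMono r → StrictMono c →
    (∀ s, r s ≤ c s) → (∀ s, c s ≤ r s + K) → 0 < mnr (sm a ε K) r c := by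
  induction K with
  | zero =>
    intro k r c hr hc h1 h2
    have : c = r := funext fun s => le_antisymm (h2 s) (h1 s)
    subst this
    exact mnr_diag_pos ha0 hr
  | succ K ih =>
    intro k r c hr hc h1 h2
    refine conv_pos (l := fun s => max (r s) (c s - 1)) (fun m => sm_TP ha hε.le K m)
      (fun m => TP_lin zero_le_one hε.le m) hr hc ?_ ?_ ?_ ?_
    · intro s s' hss
      have h3 : r s < r s' := hr hss
      have h4 : c s < c s' := hc hss
      show max (r s) (c s - 1) < max (r s') (c s' - 1)
      omega
    · intro s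
      have h3 := h1 s
      show max (r s) (c s - 1) ≤ c s
      omega
    · apply ih k _ _ hr
      · intro s s' hss
        have h3 : r s < r s' := hr hss
        have h4 : c s < c s' := hc hss
        show max (r s) (c s - 1) < max (r s') (c s' - 1)
        omega
      · intro s
        show r s ≤ max (r s) (c s - 1)
        omega
      · intro s
        have h3 := h2 s
        show max (r s) (c s - 1) ≤ r s + K
        omega
    · apply bidiag_pos hε k _ _ _ hc
      · intro s
        have h3 := h1 s
        show max (r s) (c s - 1) ≤ c s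
        omega
      · intro s
        show c s ≤ max (r s) (c s - 1) + 1
        omega
      · intro s s' hss
        have h3 : r s < r s' := hr hss
        have h4 : c s < c s' := hc hss
        show max (r s) (c s - 1) < max (r s') (c s' - 1)
        omega

theorem conv_lin_zero (a : ℕ → ℝ) (n : ℕ) : conv a (lin 1 0) n = a n := by
  unfold conv
  rw [Finset.sum_eq_single (n, 0)]
  · simp [lin]
  · rintro ⟨x, y⟩ hx hne
    rw [Finset.HasAntidiagonal.mem_antidiagonal] at hx
    simp only at hx
    have hy : y ≠ 0 := by
      rintro rfl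
      apply hne
      rw [← hx]
      simp
    unfold lin
    simp only
    rw [if_neg hy]
    split_ifs <;> simp
  · intro h
    exact absurd (by simp) h

theorem sm_tendsto (a : ℕ → ℝ) (K : ℕ) : ∀ n, Tendsto (fun ε => sm a ε K n) (𝓝[>] 0) (𝓝 (a n)) := by
  induction K with
  | zero => intro n; exact tendsto_const_nhds
  | succ K ih =>
    intro n
    have h1 : Tendsto (fun ε : ℝ => ∑ x ∈ antidiagonal n, sm a ε K x.1 * lin 1 ε x.2) (𝓝[>] 0)
        (𝓝 (∑ x ∈ antidiagonal n, a x.1 * lin 1 0 x.2)) := by
      refine tendsto_finsetSum _ fun x _ => (ih x.1).mul ?_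
      unfold lin
      split_ifs
      · exact tendsto_const_nhds
      · exact tendsto_nhdsWithin_of_tendsto_nhds tendsto_id
      · exact tendsto_const_nhds
    have h2 := conv_lin_zero a n
    unfold conv at h2
    rw [h2] at h1
    exact h1

end Pool.Agent.TH809.TP
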