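import Pool.Agent.TH809.TP.Poly
import Pool.Agent.H24R2.JP.JensenS
import Pool.Agent.H24R2.JP.Low

set_option autoImplicit false

/-!
# Minors of the Taylor coefficients of a derivative from the zeros of the derivative
-/

namespace Pool.Agent.TH809.TP

open Complex Filter Topology Polynomial
open Pool.Agent.H24R2.JP (Good SDer SGL Par SB1 SGam FF gam low_iter_add)

/-- the bad sector -/
def Kb (m : ℕ) (R : ℝ) : Set ℂ := {a | ‖a‖ ≤ R ∧ -a.re ≤ Real.cos (Real.pi / (m + 1)) * ‖a‖}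

theorem Kb_compact (m : ℕ) (R : ℝ) : IsCompact (Kb m R) := by
  have h1 : IsClosed {a : ℂ | -a.re ≤ Real.cos (Real.pi / (m + 1)) * ‖a‖} :=
    isClosed_le continuous_re.neg (continuous_const.mul continuous_norm)
  have h2 : Kb m R = Metric.closedBall (0 : ℂ) R ∩
      {a : ℂ | -a.re ≤ Real.cos (Real.pi / (m + 1)) * ‖a‖} := by
    ext a
    simp [Kb]
  rw [h2]
  exact (isCompact_closedBall 0 R).inter_right h1

/-- `1 - cos (π / (m + 1)) ≥ 2 / (m + 1) ^ 2`. -/
theorem one_sub_cos {m : ℕ} (hm : 1 ≤ m) :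
    2 / ((m : ℝ) + 1) ^ 2 ≤ 1 - Real.cos (Real.pi / (m + 1)) := by
  have hm1 : (1 : ℝ) ≤ m := by exact_mod_cast hm
  have hpi := Real.pi_pos
  have hpos : (0 : ℝ) < (m : ℝ) + 1 := by linarith
  have h0 : 0 ≤ Real.pi / (m + 1) / 2 := by positivity
  have h1 : Real.pi / (m + 1) / 2 ≤ Real.pi / 2 := by
    apply div_le_div_of_nonneg_right _ (by norm_num)
    rw [div_le_iff₀ hpos]
    nlinarith
  have hs := Real.mul_le_sin h0 h1
  have e1 : 2 / Real.pi * (Real.pi / (m + 1) / 2) = 1 / ((m : ℝ) + 1) := by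
    field_simp
  rw [e1] at hs
  have e2 : Real.cos (Real.pi / (m + 1)) = 1 - 2 * Real.sin (Real.pi / (m + 1) / 2) ^ 2 := by
    have := Real.cos_two_mul (Real.pi / (m + 1) / 2)
    rw [mul_div_cancel₀ _ (two_ne_zero)] at this
    rw [this]
    have h3 := Real.sin_sq_add_cos_sq (Real.pi / (m + 1) / 2)
    linarith
  rw [e2]
  have h2 : (1 / ((m : ℝ) + 1)) ^ 2 ≤ Real.sin (Real.pi / (m + 1) / 2) ^ 2 :=
    pow_le_pow_left₀ (by positivity) hs 2
  have e3 : 2 / ((m : ℝ) + 1) ^ 2 = 2 * (1 / ((m : ℝ) + 1)) ^ 2 := by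
    rw [div_pow, one_pow]
    ring
  rw [e3]
  linarith

/-- **The passage from zeros to minors.** -/
theorem TP_app (h1 : SDer) (h2 : SGL) {f : ℂ → ℂ} (hf : Good f) {n m : ℕ} (hm : 1 ≤ m) {R : ℝ}
    (hR : ((m : ℝ) + 1) ^ 2 / 4 ≤ R) {a : ℕ → ℝ}
    (ha : ∀ j, iteratedDeriv (n + j) f 0 = ((j.factorial * a j : ℝ) : ℂ)) (ha0 : 0 < a 0)
    (hw : ∀ w : ℂ, ‖w‖ ≤ R → iteratedDeriv n f w = 0 → w.im = 0 ∧ w.re ≤ 0) : TP m a := by
  obtain ⟨_, ⟨P, hP⟩, hf0⟩ := hf
  obtain ⟨hloc, hcoef⟩ := h1 f P hP n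
  have hm1 : (1 : ℝ) ≤ m := by exact_mod_cast hm
  have hoc := one_sub_cos hm
  have hR1 : 1 ≤ R := by nlinarith
  have hlim : ∀ j, Tendsto (fun N : ℕ => (derivative^[n] (P N)).coeff j) atTop (𝓝 (a j)) := by
    intro j
    have h3 := hcoef j
    rw [ha j] at h3
    have h4 := (Complex.continuous_re.tendsto _).comp h3
    have hj : (j.factorial : ℝ) ≠ 0 := by exact_mod_cast j.factorial_ne_zero
    have h5 : Tendsto (fun N : ℕ => (j.factorial : ℝ) * (derivative^[n] (P N)).coeff j) atTop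
        (𝓝 ((j.factorial : ℝ) * a j)) := by
      refine (h4.congr fun N => ?_).trans_eq ?_
      · simp only [Function.comp_apply]
        rw [← Complex.ofReal_natCast, ← Complex.ofReal_mul, Complex.ofReal_re]
      · rw [Complex.ofReal_re]
    have h6 := h5.const_mul ((j.factorial : ℝ)⁻¹)
    simpa only [← mul_assoc, inv_mul_cancel₀ hj, one_mul] using h6
  refine TP_limit ?_ hlim
  have hK : ∀ b ∈ Kb m R, iteratedDeriv n f b ≠ 0 := by
    intro b hb h0
    obtain ⟨him, hre⟩ := hw b hb.1 h0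
    have hn : ‖b‖ = -b.re := by
      have : b = ((b.re : ℝ) : ℂ) := by apply Complex.ext <;> simp [him]
      rw [this, Complex.norm_real, Real.norm_eq_abs, abs_of_nonpos hre]
      simp
    have h5 := hb.2
    rw [← hn] at h5
    have h6 : 0 < 2 / ((m : ℝ) + 1) ^ 2 := by positivity
    have h7 : ‖b‖ = 0 := by
      by_contra hne
      have : 0 < ‖b‖ := lt_of_le_of_ne (norm_nonneg _) (Ne.symm hne)
      nlinarith
    rw [norm_eq_zero] at h7
    rw [h7] at h0
    exact hf0 n h0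
  have hcont : ∀ N, Continuous fun x : ℂ => aeval x (derivative^[n] (P N)) := fun N =>
    (derivative^[n] (P N)).continuous_aeval
  have e1 := Pool.Agent.H24R2.JP.Jenh.event_ne _ _ hcont hloc _ (Kb_compact m R) hK
  have e2 : ∀ᶠ N in atTop, 0 < (derivative^[n] (P N)).coeff 0 :=
    (hlim 0).eventually (lt_mem_nhds ha0)
  filter_upwards [e1, e2] with N hN1 hN2
  have hne : derivative^[n] (P N) ≠ 0 := by
    intro h
    rw [h] at hN2
    simp at hN2
  refine TP_sector m hm _ _ rfl hN2 ?_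
  intro b hb
  by_cases hmem : b ∈ Kb m R
  · exact absurd hb (hN1 b hmem)
  by_cases hR' : ‖b‖ ≤ R
  · by_contra hlt
    exact hmem ⟨hR', (not_le.1 hlt).le⟩
  · have hpar : b ∈ Par := h2 (P N) n (hP.1 N) hne b hb
    have hpar' : b.re + b.im ^ 2 ≤ 1 / 4 := hpar
    have hRb : R < ‖b‖ := not_le.1 hR'
    have hre : b.re ≤ 1 / 4 := by nlinarith [sq_nonneg b.im]
    have hsq : ‖b‖ ^ 2 ≤ (1 / 2 - b.re) ^ 2 := by
      rw [Complex.sq_norm, Complex.normSq_apply]
      nlinarith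
    have hle : ‖b‖ ≤ 1 / 2 - b.re := by
      exact (pow_le_pow_iff_left₀ (norm_nonneg _) (by linarith) (two_ne_zero)).1 hsq
    have h8 : 1 / 2 ≤ (1 - Real.cos (Real.pi / (m + 1))) * ‖b‖ := by
      have h9 : 2 / ((m : ℝ) + 1) ^ 2 * (((m : ℝ) + 1) ^ 2 / 4) = 1 / 2 := by
        field_simp
        norm_num
      calc (1 : ℝ) / 2 = 2 / ((m : ℝ) + 1) ^ 2 * (((m : ℝ) + 1) ^ 2 / 4) := h9.symm
        _ ≤ (1 - Real.cos (Real.pi / (m + 1))) * ‖b‖ := by
          apply mul_le_mul hoc (hR.trans hRb.le) (by positivity)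
          exact le_trans (by positivity) hoc
    linarith

end Pool.Agent.TH809.TP
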