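import Pool.Agent.TH809.TP.Basic

set_option autoImplicit false

/-!
# Sequences with three nonzero terms
-/

namespace Pool.Agent.TH809.TP

open Matrix Finset

/-- The contiguous minor of order `k` with shift one. -/
noncomputable def tri (a : ℕ → ℝ) (k : ℕ) : ℝ :=
  mnr a (fun p : Fin k => (p : ℕ)) (fun p : Fin k => (p : ℕ) + 1)

theorem ent_shift (a : ℕ → ℝ) (s i j : ℕ) : ent a (s + i) (s + j) = ent a i j := by
  unfold ent
  by_cases h : i ≤ j
  · rw [if_pos h, if_pos (by omega), show s + j - (s + i) = j - i by omega]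
  · rw [if_neg h, if_neg (by omega)]

theorem ent_zero_of_lt (a : ℕ → ℝ) {i j : ℕ} (h : j < i) : ent a i j = 0 := by
  unfold ent
  rw [if_neg (by omega)]

theorem ent_zero_of_gt {a : ℕ → ℝ} (ha : ∀ n, 3 ≤ n → a n = 0) {i j : ℕ} (h : i + 2 < j) :
    ent a i j = 0 := by
  unfold ent
  rw [if_pos (by omega), ha _ (by omega)]

theorem mnr_nonneg_band {a : ℕ → ℝ} {m : ℕ} (ha : ∀ n, 3 ≤ n → a n = 0) (h0 : 0 ≤ a 0)
    (h1 : 0 ≤ a 1) (h2 : 0 ≤ a 2) (hc : ∀ k ≤ m, 0 ≤ tri a k) :
    ∀ k ≤ m, ∀ r c : Fin k → ℕ, StrictMono r → StrictMono c → 0 ≤ mnr a r c := by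
  intro k
  induction k using Nat.strong_induction_on with
  | _ k ih =>
  intro hk r c hr hcm
  -- splitting at `p`
  have split : ∀ p q : ℕ, (hpq : p + q = k) → 0 < p → 0 < q →
      ∀ (r' c' : Fin (p + q) → ℕ), StrictMono r' → StrictMono c' →
      ((∀ (i : Fin q) (j : Fin p), ent a (r' (Fin.natAdd p i)) (c' (Fin.castAdd q j)) = 0) ∨
        (∀ (i : Fin p) (j : Fin q), ent a (r' (Fin.castAdd q i)) (c' (Fin.natAdd p j)) = 0)) →
      0 ≤ mnr a r' c' := by
    intro p q hpq hp hq r' c' hr' hc' h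
    have e : mnr a r' c' = mnr a (r' ∘ Fin.castAdd q) (c' ∘ Fin.castAdd q) *
        mnr a (r' ∘ Fin.natAdd p) (c' ∘ Fin.natAdd p) := by
      rcases h with h | h
      · exact mnr_split_lower a r' c' h
      · exact mnr_split_upper a r' c' h
    rw [e]
    refine mul_nonneg (ih p (by omega) (by omega) _ _ (hr'.comp (Fin.strictMono_castAdd q))
      (hc'.comp (Fin.strictMono_castAdd q))) (ih q (by omega) (by omega) _ _
      (hr'.comp (Fin.strictMono_natAdd p)) (hc'.comp (Fin.strictMono_natAdd p)))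
  rcases Nat.lt_or_ge k 1 with hk0 | hk1
  · have : k = 0 := by omega
    subst this
    simp [mnr]
  -- is there a splitting point?
  by_cases hs : ∃ p : ℕ, 0 < p ∧ ∃ hp : p < k, (c ⟨p - 1, by omega⟩ < r ⟨p, hp⟩ ∨
      r ⟨p - 1, by omega⟩ + 2 < c ⟨p, hp⟩)
  · obtain ⟨p, hp0, hp, h⟩ := hs
    obtain ⟨q, rfl⟩ : ∃ q, k = p + q := ⟨k - p, by omega⟩
    refine split p q rfl hp0 (by omega) r c hr hcm ?_
    rcases h with h | h
    · left
      intro i j
      apply ent_zero_of_lt
      have e1 : c (Fin.castAdd q j) ≤ c ⟨p - 1, by omega⟩ := by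
        apply hcm.monotone
        rw [Fin.le_def]
        simp only [Fin.val_castAdd]
        omega
      have e2 : r ⟨p, hp⟩ ≤ r (Fin.natAdd p i) := by
        apply hr.monotone
        rw [Fin.le_def]
        simp only [Fin.val_natAdd]
        omega
      omega
    · right
      intro i j
      apply ent_zero_of_gt ha
      have e1 : c ⟨p, hp⟩ ≤ c (Fin.natAdd p j) := by
        apply hcm.monotone
        rw [Fin.le_def]
        simp only [Fin.val_natAdd]
        omega
      have e2 : r (Fin.castAdd q i) ≤ r ⟨p - 1, by omega⟩ := by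
        apply hr.monotone
        rw [Fin.le_def]
        simp only [Fin.val_castAdd]
        omega
      omega
  · push Not at hs
    rcases Nat.lt_or_ge k 2 with hk2 | hk2
    · have : k = 1 := by omega
      subst this
      unfold mnr
      rw [Matrix.det_fin_one]
      simp only [Matrix.of_apply]
      unfold ent
      split_ifs with h
      · generalize c 0 - r 0 = n
        rcases n with _ | _ | _ | n
        · exact h0
        · exact h1
        · exact h2
        · rw [ha _ (by omega)]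
      · exact le_rfl
    · -- contiguous
      have key : ∀ p : ℕ, ∀ hp : p < k, r ⟨p, hp⟩ = r ⟨0, by omega⟩ + p ∧
          c ⟨p, hp⟩ = r ⟨0, by omega⟩ + (p + 1) := by
        have step : ∀ p : ℕ, ∀ hp : p + 1 < k, r ⟨p + 1, hp⟩ = r ⟨p, by omega⟩ + 1 ∧
            c ⟨p, by omega⟩ = r ⟨p, by omega⟩ + 1 ∧ c ⟨p + 1, hp⟩ = r ⟨p, by omega⟩ + 2 := by
          intro p hp
          have a1 := (hs (p + 1) (by omega) hp).1
          have a2 := (hs (p + 1) (by omega) hp).2
          simp only [Nat.add_sub_cancel] at a1 a2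
          have a3 : r ⟨p, by omega⟩ < r ⟨p + 1, hp⟩ := hr (by rw [Fin.lt_def]; simp)
          have a4 : c ⟨p, by omega⟩ < c ⟨p + 1, hp⟩ := hcm (by rw [Fin.lt_def]; simp)
          omega
        intro p
        induction p with
        | zero =>
          intro hp
          have := step 0 (by omega)
          exact ⟨by simp, by simpa using this.2.1⟩
        | succ p ihp =>
          intro hp
          have e1 := step p hp
          have e2 := ihp (by omega)
          omega
      have e : mnr a r c = tri a k := by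
        unfold tri mnr
        congr 1
        ext p q
        simp only [Matrix.of_apply]
        rw [(key p p.2).1, (key q q.2).2, ent_shift]
      rw [e]
      exact hc k hk

theorem TP_band {a : ℕ → ℝ} {m : ℕ} (ha : ∀ n, 3 ≤ n → a n = 0) (h0 : 0 ≤ a 0)
    (h1 : 0 ≤ a 1) (h2 : 0 ≤ a 2) (hc : ∀ k ≤ m, 0 ≤ tri a k) : TP m a :=
  mnr_nonneg_band ha h0 h1 h2 hc

/-! ### The contiguous minors -/

theorem tri_zero (a : ℕ → ℝ) : tri a 0 = 1 := by simp [tri, mnr]

theorem tri_one (a : ℕ → ℝ) : tri a 1 = a 1 := by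
  unfold tri mnr
  rw [Matrix.det_fin_one]
  simp [ent]

theorem tri_rec {a : ℕ → ℝ} (ha : ∀ n, 3 ≤ n → a n = 0) (k : ℕ) :
    tri a (k + 2) = a 1 * tri a (k + 1) - a 0 * a 2 * tri a k := by
  unfold tri mnr
  rw [Matrix.det_succ_column_zero, Fin.sum_univ_succ, Fin.sum_univ_succ]
  have hz : ∑ i : Fin k, (-1 : ℝ) ^ (((i.succ).succ : Fin (k + 2)) : ℕ) *
      (Matrix.of fun (p : Fin (k + 2)) (q : Fin (k + 2)) => ent a p (q + 1)) (i.succ).succ 0 *
      ((Matrix.of fun (p : Fin (k + 2)) (q : Fin (k + 2)) => ent a p (q + 1)).submatrix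
        ((i.succ).succ).succAbove Fin.succ).det = 0 := by
    apply Finset.sum_eq_zero
    intro i _
    have : (Matrix.of fun (p : Fin (k + 2)) (q : Fin (k + 2)) => ent a p (q + 1)) (i.succ).succ 0 = 0 := by
      simp only [Matrix.of_apply]
      apply ent_zero_of_lt
      simp
    rw [this, mul_zero, zero_mul]
  rw [hz, add_zero]
  have e1 : ((Matrix.of fun (p : Fin (k + 2)) (q : Fin (k + 2)) => ent a p (q + 1)).submatrix
      (Fin.succAbove 0) Fin.succ) = Matrix.of fun (p : Fin (k + 1)) (q : Fin (k + 1)) => ent a p (q + 1) := by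
    ext p q
    simp only [Matrix.submatrix_apply, Matrix.of_apply, Fin.succAbove_zero, Fin.val_succ]
    rw [add_comm (p : ℕ) 1, show (q : ℕ) + 1 + 1 = 1 + (q + 1) by ring, ent_shift]
  have e2 : ((Matrix.of fun (p : Fin (k + 2)) (q : Fin (k + 2)) => ent a p (q + 1)).submatrix
      (Fin.succAbove (Fin.succ 0)) Fin.succ).det =
      a 2 * (Matrix.of fun (p : Fin k) (q : Fin k) => ent a p (q + 1)).det := by
    rw [Matrix.det_succ_row_zero, Fin.sum_univ_succ]
    have hz2 : ∑ i : Fin k, (-1 : ℝ) ^ ((i.succ : Fin (k + 1)) : ℕ) *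
        ((Matrix.of fun (p : Fin (k + 2)) (q : Fin (k + 2)) => ent a p (q + 1)).submatrix
          (Fin.succAbove (Fin.succ 0)) Fin.succ) 0 i.succ *
        (((Matrix.of fun (p : Fin (k + 2)) (q : Fin (k + 2)) => ent a p (q + 1)).submatrix
          (Fin.succAbove (Fin.succ 0)) Fin.succ).submatrix Fin.succ (i.succ).succAbove).det = 0 := by
      apply Finset.sum_eq_zero
      intro i _
      have : ((Matrix.of fun (p : Fin (k + 2)) (q : Fin (k + 2)) => ent a p (q + 1)).submatrix
          (Fin.succAbove (Fin.succ 0)) Fin.succ) 0 i.succ = 0 := by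
        simp only [Matrix.submatrix_apply, Matrix.of_apply]
        apply ent_zero_of_gt ha
        have : (Fin.succAbove (Fin.succ 0) (0 : Fin (k + 1)) : Fin (k + 2)) = 0 := by
          rw [Fin.succAbove_of_castSucc_lt]
          · rfl
          · simp
        rw [this]
        simp
      rw [this, mul_zero, zero_mul]
    rw [hz2, add_zero]
    have e3 : ((Matrix.of fun (p : Fin (k + 2)) (q : Fin (k + 2)) => ent a p (q + 1)).submatrix
          (Fin.succAbove (Fin.succ 0)) Fin.succ) 0 0 = a 2 := by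
      simp only [Matrix.submatrix_apply, Matrix.of_apply]
      have : (Fin.succAbove (Fin.succ 0) (0 : Fin (k + 1)) : Fin (k + 2)) = 0 := by
        rw [Fin.succAbove_of_castSucc_lt]
        · rfl
        · simp
      rw [this]
      simp [ent]
    have e4 : (((Matrix.of fun (p : Fin (k + 2)) (q : Fin (k + 2)) => ent a p (q + 1)).submatrix
          (Fin.succAbove (Fin.succ 0)) Fin.succ).submatrix Fin.succ (Fin.succAbove 0)) =
        Matrix.of fun (p : Fin k) (q : Fin k) => ent a p (q + 1) := by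
      ext p q
      simp only [Matrix.submatrix_apply, Matrix.of_apply, Fin.succAbove_zero, Fin.val_succ]
      have : (Fin.succAbove (Fin.succ 0) (p.succ : Fin (k + 1)) : Fin (k + 2)) = p.succ.succ := by
        rw [Fin.succAbove_of_lt_succ]
        rw [Fin.lt_def]
        simp
      rw [this]
      simp only [Fin.val_succ]
      rw [show (p : ℕ) + 1 + 1 = 2 + p by ring, show (q : ℕ) + 1 + 1 + 1 = 2 + (q + 1) by ring, ent_shift]
    rw [e3, e4]
    simp
  rw [e1, e2]
  simp only [Matrix.of_apply, Fin.val_zero, Fin.val_succ, Fin.succ_zero_eq_one, Fin.val_one]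
  have e5 : ent a 0 (0 + 1) = a 1 := by simp [ent]
  have e6 : ent a (0 + 1) (0 + 1) = a 0 := by simp [ent]
  rw [e5, e6]
  ring

/-- The quadratic factor `1 + 2 ρ cos ψ z + ρ² z²`. -/
noncomputable def quad (ρ ψ : ℝ) (n : ℕ) : ℝ :=
  if n = 0 then 1 else if n = 1 then 2 * ρ * Real.cos ψ else if n = 2 then ρ ^ 2 else 0

theorem tri_quad (ρ ψ : ℝ) : ∀ k : ℕ,
    tri (quad ρ ψ) k * Real.sin ψ = ρ ^ k * Real.sin ((k + 1) * ψ) := by
  have ha : ∀ n, 3 ≤ n → quad ρ ψ n = 0 := by
    intro n hn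
    unfold quad
    rw [if_neg (by omega), if_neg (by omega), if_neg (by omega)]
  intro k
  induction k using Nat.twoStepInduction with
  | zero => rw [tri_zero]; simp
  | one =>
    rw [tri_one]
    have : quad ρ ψ 1 = 2 * ρ * Real.cos ψ := by simp [quad]
    rw [this]
    push_cast
    rw [show ((1 : ℝ) + 1) * ψ = 2 * ψ by ring, Real.sin_two_mul]
    ring
  | more k ih1 ih2 =>
    rw [tri_rec ha]
    have q1 : quad ρ ψ 1 = 2 * ρ * Real.cos ψ := by simp [quad]
    have q0 : quad ρ ψ 0 = 1 := by simp [quad]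
    have q2 : quad ρ ψ 2 = ρ ^ 2 := by simp [quad]
    rw [q0, q1, q2]
    have e : (2 * ρ * Real.cos ψ * tri (quad ρ ψ) (k + 1) - 1 * ρ ^ 2 * tri (quad ρ ψ) k) * Real.sin ψ =
        2 * ρ * Real.cos ψ * (tri (quad ρ ψ) (k + 1) * Real.sin ψ) -
          ρ ^ 2 * (tri (quad ρ ψ) k * Real.sin ψ) := by ring
    rw [e, ih1, ih2]
    have s1 : Real.sin (((k + 2 : ℕ) + 1 : ℝ) * ψ) =
        2 * Real.cos ψ * Real.sin (((k + 1 : ℕ) + 1 : ℝ) * ψ) - Real.sin (((k : ℕ) + 1 : ℝ) * ψ) := by
      have h1 : (((k + 2 : ℕ) : ℝ) + 1) * ψ = (((k + 1 : ℕ) : ℝ) + 1) * ψ + ψ := by push_cast; ring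
      have h2 : (((k : ℕ) : ℝ) + 1) * ψ = (((k + 1 : ℕ) : ℝ) + 1) * ψ - ψ := by push_cast; ring
      rw [h1, h2, Real.sin_add, Real.sin_sub]
      ring
    rw [s1]
    ring

/-- The quadratic factor is `m` times positive if `(m + 1) ψ ≤ π`. -/
theorem TP_quad {ρ ψ : ℝ} {m : ℕ} (hρ : 0 ≤ ρ) (hψ : 0 < ψ) (hm : 1 ≤ m) (h : ((m : ℝ) + 1) * ψ ≤ Real.pi) :
    TP m (quad ρ ψ) := by
  have hm1 : (1 : ℝ) ≤ m := by exact_mod_cast hm
  have hψ2 : ψ ≤ Real.pi / 2 := by nlinarith
  have hs : 0 < Real.sin ψ := Real.sin_pos_of_pos_of_lt_pi hψ (by linarith [Real.pi_pos])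
  have hcos : 0 ≤ Real.cos ψ := Real.cos_nonneg_of_neg_pi_div_two_le_of_le (by linarith) hψ2
  refine TP_band ?_ ?_ ?_ ?_ ?_
  · intro n hn
    unfold quad
    rw [if_neg (by omega), if_neg (by omega), if_neg (by omega)]
  · simp [quad]
  · simp only [quad]
    norm_num
    positivity
  · simp only [quad]
    norm_num
    positivity
  · intro k hk
    have h1 := tri_quad ρ ψ k
    have h2 : 0 ≤ Real.sin (((k : ℝ) + 1) * ψ) := by
      apply Real.sin_nonneg_of_nonneg_of_le_pi
      · positivity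
      · have : (k : ℝ) ≤ m := by exact_mod_cast hk
        nlinarith
    have h3 : 0 ≤ tri (quad ρ ψ) k * Real.sin ψ := by rw [h1]; positivity
    by_contra hneg
    push Not at hneg
    have := mul_neg_of_neg_of_pos hneg hs
    linarith

/-- The linear factor `s + t z`. -/
noncomputable def lin (s t : ℝ) (n : ℕ) : ℝ := if n = 0 then s else if n = 1 then t else 0

theorem tri_lin (s t : ℝ) : ∀ k : ℕ, tri (lin s t) k = t ^ k := by
  have ha : ∀ n, 3 ≤ n → lin s t n = 0 := by
    intro n hn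
    unfold lin
    rw [if_neg (by omega), if_neg (by omega)]
  intro k
  induction k using Nat.twoStepInduction with
  | zero => rw [tri_zero]; simp
  | one => rw [tri_one]; simp [lin]
  | more k ih1 ih2 =>
    rw [tri_rec ha, ih2]
    have q1 : lin s t 1 = t := by simp [lin]
    have q2 : lin s t 2 = 0 := by simp [lin]
    rw [q1, q2]
    ring

theorem TP_lin {s t : ℝ} (hs : 0 ≤ s) (ht : 0 ≤ t) (m : ℕ) : TP m (lin s t) := by
  refine TP_band ?_ ?_ ?_ ?_ ?_
  · intro n hn
    unfold lin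
    rw [if_neg (by omega), if_neg (by omega)]
  · simpa [lin] using hs
  · simpa [lin] using ht
  · simp [lin]
  · intro k _
    rw [tri_lin]
    positivity

end Pool.Agent.TH809.TP
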