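import Mathlib
import Pool.Agent.H801R3.SB.CB

set_option autoImplicit false

/-!
# Minors of triangular Toeplitz matrices

`ent a i j = a (j - i)` (zero if `j < i`), `mnr a r c` is the minor with rows `r` and columns `c`, and
`TP m a` means that all minors of order at most `m` are nonnegative (`a` is `m` times positive, a Polya
frequency sequence of order `m`).
-/

namespace Pool.Agent.TH809.TP

open Matrix Finset

/-- the entry `a (j - i)` (zero if `j < i`) of the Toeplitz matrix -/
def ent (a : ℕ → ℝ) (i j : ℕ) : ℝ := if i ≤ j then a (j - i) else 0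

/-- The minor of the Toeplitz matrix with rows `r` and columns `c`. -/
noncomputable def mnr (a : ℕ → ℝ) {k : ℕ} (r c : Fin k → ℕ) : ℝ :=
  (Matrix.of fun p q => ent a (r p) (c q)).det

/-- All minors of order at most `m` are nonnegative. -/
def TP (m : ℕ) (a : ℕ → ℝ) : Prop :=
  ∀ k ≤ m, ∀ r c : Fin k → ℕ, StrictMono r → StrictMono c → 0 ≤ mnr a r c

/-- the convolution -/
def conv (a b : ℕ → ℝ) (n : ℕ) : ℝ := ∑ x ∈ antidiagonal n, a x.1 * b x.2

theorem ent_conv (a b : ℕ → ℝ) (i j N : ℕ) (hN : j < N) :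
    ent (conv a b) i j = ∑ l : Fin N, ent a i l * ent b l j := by
  rw [Fin.sum_univ_eq_sum_range (fun l => ent a i l * ent b l j) N]
  unfold ent conv
  split_ifs with h
  · rw [Finset.Nat.sum_antidiagonal_eq_sum_range_succ (fun x y => a x * b y)]
    have e1 : ∑ l ∈ range N, ((if i ≤ l then a (l - i) else 0) * if l ≤ j then b (j - l) else 0) =
        ∑ l ∈ Finset.Ico i (j + 1), a (l - i) * b (j - l) := by
      symm
      apply Finset.sum_subset_zero_on_sdiff
      · intro l hl
        simp only [Finset.mem_Ico, Finset.mem_range] at *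
        omega
      · intro l hl
        simp only [Finset.mem_sdiff, Finset.mem_range, Finset.mem_Ico] at hl
        by_cases h1 : i ≤ l
        · rw [if_neg (show ¬ l ≤ j by omega), mul_zero]
        · rw [if_neg h1, zero_mul]
      · intro l hl
        simp only [Finset.mem_Ico] at hl
        rw [if_pos hl.1, if_pos (by omega)]
    rw [e1, Finset.sum_Ico_eq_sum_range, show j + 1 - i = j - i + 1 by omega]
    refine Finset.sum_congr rfl fun k hk => ?_
    rw [show i + k - i = k by omega, show j - (i + k) = j - i - k by omega]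
  · symm
    apply Finset.sum_eq_zero
    intro l _
    by_cases h1 : i ≤ l
    · rw [if_neg (show ¬ l ≤ j by omega), mul_zero]
    · rw [if_neg h1, zero_mul]

/-- sorting a tuple does not change the product of the two minors -/
theorem term_sort {k N : ℕ} (P : Matrix (Fin k) (Fin N) ℝ) (Q : Matrix (Fin N) (Fin k) ℝ)
    (t : Fin k → Fin N) (σ : Equiv.Perm (Fin k)) :
    (P.submatrix id t).det * (Q.submatrix t id).det =
      (P.submatrix id (t ∘ σ)).det * (Q.submatrix (t ∘ σ) id).det := by
  have e1 : P.submatrix id (t ∘ σ) = (P.submatrix id t).submatrix id σ := rfl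
  have e2 : Q.submatrix (t ∘ σ) id = (Q.submatrix t id).submatrix σ id := rfl
  rw [e1, e2, Matrix.det_permute', Matrix.det_permute]
  have h : ((Equiv.Perm.sign σ : ℤ) : ℝ) * ((Equiv.Perm.sign σ : ℤ) : ℝ) = 1 := by
    rcases Int.units_eq_one_or (Equiv.Perm.sign σ) with h | h <;> rw [h] <;> norm_num
  linear_combination (-(P.submatrix id t).det * (Q.submatrix t id).det) * h

theorem term_nonneg {k N : ℕ} (P : Matrix (Fin k) (Fin N) ℝ) (Q : Matrix (Fin N) (Fin k) ℝ)
    (hP : ∀ t : Fin k → Fin N, StrictMono t → 0 ≤ (P.submatrix id t).det)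
    (hQ : ∀ t : Fin k → Fin N, StrictMono t → 0 ≤ (Q.submatrix t id).det) (t : Fin k → Fin N) :
    0 ≤ (P.submatrix id t).det * (Q.submatrix t id).det := by
  by_cases ht : Function.Injective t
  · rw [term_sort P Q t (Tuple.sort t)]
    have hm : StrictMono (t ∘ Tuple.sort t) :=
      (Tuple.monotone_sort t).strictMono_of_injective (ht.comp (Tuple.sort t).injective)
    exact mul_nonneg (hP _ hm) (hQ _ hm)
  · have h : ∃ i j, t i = t j ∧ i ≠ j := by
      rw [Function.Injective] at ht
      push Not at ht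
      exact ht
    obtain ⟨i, j, hij, hne⟩ := h
    have : (P.submatrix id t).det = 0 := by
      apply Matrix.det_zero_of_column_eq hne
      intro l
      simp [Matrix.submatrix_apply, hij]
    rw [this, zero_mul]

theorem mat_conv (a b : ℕ → ℝ) {k : ℕ} (r c : Fin k → ℕ) (N : ℕ) (hN : ∀ q, c q < N) :
    (Matrix.of fun p q => ent (conv a b) (r p) (c q)) =
      (Matrix.of fun (p : Fin k) (l : Fin N) => ent a (r p) l) *
        (Matrix.of fun (l : Fin N) (q : Fin k) => ent b l (c q)) := by
  ext p q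
  rw [Matrix.mul_apply]
  simp only [Matrix.of_apply]
  exact ent_conv a b _ _ N (hN q)

theorem exists_bound {k : ℕ} (c : Fin k → ℕ) : ∃ N : ℕ, ∀ q, c q < N := by
  refine ⟨∑ q, c q + 1, fun q => ?_⟩
  have := Finset.single_le_sum (f := c) (fun i _ => Nat.zero_le _) (Finset.mem_univ q)
  omega

/-- The product of two generating functions. -/
theorem TP.conv {m : ℕ} {a b : ℕ → ℝ} (ha : TP m a) (hb : TP m b) : TP m (conv a b) := by
  intro k hk r c hr hc
  obtain ⟨N, hN⟩ := exists_bound c
  unfold mnr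
  rw [mat_conv a b r c N hN, Pool.Agent.H801R3.SB.cauchyBinet]
  refine mul_nonneg (by positivity) (Finset.sum_nonneg fun t _ => term_nonneg _ _ ?_ ?_ t)
  · intro t ht
    exact ha k hk r (fun q => (t q : ℕ)) hr (fun _ _ h => ht h)
  · intro t ht
    exact hb k hk (fun q => (t q : ℕ)) c (fun _ _ h => ht h) hc

/-- Strict positivity of a minor of the product. -/
theorem conv_pos {a b : ℕ → ℝ} (ha : ∀ m, TP m a) (hb : ∀ m, TP m b) {k : ℕ} {r c l : Fin k → ℕ}
    (hr : StrictMono r) (hc : StrictMono c) (hl : StrictMono l) (hlc : ∀ q, l q ≤ c q)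
    (h1 : 0 < mnr a r l) (h2 : 0 < mnr b l c) : 0 < mnr (conv a b) r c := by
  obtain ⟨N, hN⟩ := exists_bound c
  unfold mnr
  rw [mat_conv a b r c N hN, Pool.Agent.H801R3.SB.cauchyBinet]
  refine mul_pos (by positivity) ?_
  let t0 : Fin k → Fin N := fun q => ⟨l q, (hlc q).trans_lt (hN q)⟩
  refine Finset.sum_pos' (fun t _ => term_nonneg _ _ ?_ ?_ t) ⟨t0, Finset.mem_univ _, mul_pos h1 h2⟩
  · intro t ht
    exact ha k k le_rfl r (fun q => (t q : ℕ)) hr (fun _ _ h => ht h)
  · intro t ht
    exact hb k k le_rfl (fun q => (t q : ℕ)) c (fun _ _ h => ht h) hc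

/-! ### Splitting -/

theorem mnr_split_lower (a : ℕ → ℝ) {p q : ℕ} (r c : Fin (p + q) → ℕ)
    (h : ∀ (i : Fin q) (j : Fin p), ent a (r (Fin.natAdd p i)) (c (Fin.castAdd q j)) = 0) :
    mnr a r c = mnr a (r ∘ Fin.castAdd q) (c ∘ Fin.castAdd q) *
      mnr a (r ∘ Fin.natAdd p) (c ∘ Fin.natAdd p) := by
  unfold mnr
  rw [← Matrix.det_submatrix_equiv_self finSumFinEquiv]
  have e : (Matrix.of fun x y => ent a (r x) (c y)).submatrix finSumFinEquiv finSumFinEquiv =
      Matrix.fromBlocks (Matrix.of fun x y => ent a ((r ∘ Fin.castAdd q) x) ((c ∘ Fin.castAdd q) y))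
        (Matrix.of fun x y => ent a ((r ∘ Fin.castAdd q) x) ((c ∘ Fin.natAdd p) y)) 0
        (Matrix.of fun x y => ent a ((r ∘ Fin.natAdd p) x) ((c ∘ Fin.natAdd p) y)) := by
    ext x y
    rcases x with x | x <;> rcases y with y | y <;> simp [h]
  rw [e, Matrix.det_fromBlocks_zero₂₁]

theorem mnr_split_upper (a : ℕ → ℝ) {p q : ℕ} (r c : Fin (p + q) → ℕ)
    (h : ∀ (i : Fin p) (j : Fin q), ent a (r (Fin.castAdd q i)) (c (Fin.natAdd p j)) = 0) :
    mnr a r c = mnr a (r ∘ Fin.castAdd q) (c ∘ Fin.castAdd q) *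
      mnr a (r ∘ Fin.natAdd p) (c ∘ Fin.natAdd p) := by
  unfold mnr
  rw [← Matrix.det_submatrix_equiv_self finSumFinEquiv]
  have e : (Matrix.of fun x y => ent a (r x) (c y)).submatrix finSumFinEquiv finSumFinEquiv =
      Matrix.fromBlocks (Matrix.of fun x y => ent a ((r ∘ Fin.castAdd q) x) ((c ∘ Fin.castAdd q) y)) 0
        (Matrix.of fun x y => ent a ((r ∘ Fin.natAdd p) x) ((c ∘ Fin.castAdd q) y))
        (Matrix.of fun x y => ent a ((r ∘ Fin.natAdd p) x) ((c ∘ Fin.natAdd p) y)) := by
    ext x y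
    rcases x with x | x <;> rcases y with y | y <;> simp [h]
  rw [e, Matrix.det_fromBlocks_zero₁₂]

end Pool.Agent.TH809.TP
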