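import Pool.Agent.TH809.TP.VD

set_option autoImplicit false

/-!
# Totally positive coefficients force real zeros
-/

namespace Pool.Agent.TH809.TP

open Finset Filter Topology Complex

theorem geom_bound {e u : ℂ} (he : ‖e‖ = 1) (h1 : e ≠ 1) (hu : ‖u‖ = 1) (M : ℕ) :
    |∑ n ∈ range M, (u * e ^ n).re| ≤ 2 / ‖e - 1‖ := by
  have h0 : 0 < ‖e - 1‖ := norm_pos_iff.2 (sub_ne_zero.2 h1)
  rw [← Complex.re_sum, ← Finset.mul_sum, geom_sum_eq h1]
  refine (Complex.abs_re_le_norm _).trans ?_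
  rw [norm_mul, hu, one_mul, norm_div]
  apply div_le_div_of_nonneg_right _ h0.le
  refine (norm_sub_le _ _).trans ?_
  rw [norm_pow, he, one_pow, norm_one]
  norm_num

theorem re_sq {z : ℂ} (hz : ‖z‖ = 1) : z.re ^ 2 = (1 + (z ^ 2).re) / 2 := by
  have h1 : z.re * z.re + z.im * z.im = 1 := by
    rw [← Complex.normSq_apply, Complex.normSq_eq_norm_sq, hz, one_pow]
  rw [pow_two z, Complex.mul_re]
  linarith

theorem sq_eq_one_cases {e : ℂ} (h : e ^ 2 = 1) : e = 1 ∨ e = -1 := by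
  have h1 : (e - 1) * (e + 1) = 0 := by linear_combination h
  rcases mul_eq_zero.1 h1 with h2 | h2
  · exact Or.inl (by linear_combination h2)
  · exact Or.inr (by linear_combination h2)

/-- Infinitely many sign changes. -/
theorem osc {e : ℂ} (he : ‖e‖ = 1) (him : e.im ≠ 0) {C τ : ℝ} (hC : 0 < C) (hτ0 : 0 ≤ τ) (hτ : τ < 1)
    (hs : ∀ n : ℕ, C * (e ^ n).re + τ ^ n ≠ 0) (N : ℕ) :
    ∃ n, N ≤ n ∧ (C * (e ^ n).re + τ ^ n) * (C * (e ^ (n + 1)).re + τ ^ (n + 1)) < 0 := by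
  by_contra hcon
  push Not at hcon
  have hpos : ∀ n, N ≤ n →
      0 < (C * (e ^ n).re + τ ^ n) * (C * (e ^ (n + 1)).re + τ ^ (n + 1)) := fun n hn =>
    lt_of_le_of_ne (hcon n hn) (Ne.symm (mul_ne_zero (hs n) (hs (n + 1))))
  have hall : ∀ n, N ≤ n → 0 < (C * (e ^ N).re + τ ^ N) * (C * (e ^ n).re + τ ^ n) := by
    intro n hn
    induction n, hn using Nat.le_induction with
    | base => exact mul_self_pos.2 (hs N)
    | succ n hn ih =>
      have h1 := hpos n hn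
      have h2 : 0 < (C * (e ^ n).re + τ ^ n) * (C * (e ^ n).re + τ ^ n) := mul_self_pos.2 (hs n)
      have h3 := mul_pos ih h1
      have h4 : (C * (e ^ N).re + τ ^ N) * (C * (e ^ n).re + τ ^ n) *
          ((C * (e ^ n).re + τ ^ n) * (C * (e ^ (n + 1)).re + τ ^ (n + 1))) =
          ((C * (e ^ n).re + τ ^ n) * (C * (e ^ n).re + τ ^ n)) *
          ((C * (e ^ N).re + τ ^ N) * (C * (e ^ (n + 1)).re + τ ^ (n + 1))) := by ring
      rw [h4] at h3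
      exact (mul_pos_iff_of_pos_left h2).1 h3
  -- the common sign
  obtain ⟨σ, hσ1, hσ⟩ : ∃ σ : ℝ, |σ| = 1 ∧ ∀ n, N ≤ n →
      |C * (e ^ n).re| ≤ σ * (C * (e ^ n).re) + 2 * τ ^ n := by
    rcases lt_or_gt_of_ne (hs N) with h | h
    · refine ⟨-1, by norm_num, fun n hn => ?_⟩
      have h1 := hall n hn
      have h2 : C * (e ^ n).re + τ ^ n < 0 := by nlinarith
      have h3 : 0 ≤ τ ^ n := pow_nonneg hτ0 n
      rw [abs_of_neg (by linarith)]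
      linarith
    · refine ⟨1, by norm_num, fun n hn => ?_⟩
      have h1 := hall n hn
      have h2 : 0 < C * (e ^ n).re + τ ^ n := by nlinarith
      have h3 : 0 ≤ τ ^ n := pow_nonneg hτ0 n
      rw [abs_le]
      constructor <;> linarith
  have hne1 : e ≠ 1 := by
    rintro rfl
    simp at him
  have he2 : ‖e ^ 2‖ = 1 := by rw [norm_pow, he, one_pow]
  have hne2 : e ^ 2 ≠ 1 := by
    intro h
    rcases (sq_eq_one_cases h) with h3 | h3
    · exact hne1 h3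
    · rw [h3] at him
      simp at him
  have hnorm : ∀ n, ‖e ^ n‖ = 1 := fun n => by rw [norm_pow, he, one_pow]
  -- sums
  have hupper : ∀ M : ℕ, C * ∑ n ∈ range M, ((e ^ (N + n)).re) ^ 2 ≤
      C * (2 / ‖e - 1‖) + 2 * (1 - τ)⁻¹ := by
    intro M
    have h1 : ∀ n ∈ range M, C * ((e ^ (N + n)).re) ^ 2 ≤
        σ * (C * (e ^ N * e ^ n).re) + 2 * τ ^ n := by
      intro n _
      have h2 := hσ (N + n) (by omega)
      have h3 : |(e ^ (N + n)).re| ≤ 1 := (Complex.abs_re_le_norm _).trans (hnorm _).le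
      have h4 : ((e ^ (N + n)).re) ^ 2 ≤ |(e ^ (N + n)).re| := by
        rw [← sq_abs]
        nlinarith [abs_nonneg (e ^ (N + n)).re]
      rw [abs_mul, abs_of_pos hC] at h2
      have h5 : τ ^ (N + n) ≤ τ ^ n := pow_le_pow_of_le_one hτ0 hτ.le (by omega)
      rw [← pow_add]
      nlinarith
    rw [Finset.mul_sum]
    refine (Finset.sum_le_sum h1).trans ?_
    rw [Finset.sum_add_distrib, ← Finset.mul_sum, ← Finset.mul_sum, ← Finset.mul_sum]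
    have h6 : σ * (C * ∑ n ∈ range M, (e ^ N * e ^ n).re) ≤ C * (2 / ‖e - 1‖) := by
      refine (le_abs_self _).trans ?_
      rw [abs_mul, hσ1, one_mul, abs_mul, abs_of_pos hC]
      exact mul_le_mul_of_nonneg_left (geom_bound he hne1 (hnorm N) M) hC.le
    have h7 : ∑ n ∈ range M, τ ^ n ≤ (1 - τ)⁻¹ :=
      sum_le_hasSum (range M) (fun i _ => pow_nonneg hτ0 i) (hasSum_geometric_of_lt_one hτ0 hτ)
    linarith
  have hlower : ∀ M : ℕ, (M : ℝ) / 2 - (2 / ‖e ^ 2 - 1‖) / 2 ≤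
      ∑ n ∈ range M, ((e ^ (N + n)).re) ^ 2 := by
    intro M
    have h1 : ∀ n ∈ range M, ((e ^ (N + n)).re) ^ 2 = 1 / 2 + (e ^ (2 * N) * (e ^ 2) ^ n).re / 2 := by
      intro n _
      rw [re_sq (hnorm _)]
      have : (e ^ (N + n)) ^ 2 = e ^ (2 * N) * (e ^ 2) ^ n := by ring
      rw [this]
      ring
    rw [Finset.sum_congr rfl h1, Finset.sum_add_distrib, Finset.sum_const, Finset.card_range,
      ← Finset.sum_div]
    have h2 := neg_le_of_abs_le (geom_bound he2 hne2 (hnorm (2 * N)) M)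
    rw [nsmul_eq_mul]
    linarith
  obtain ⟨M, hM⟩ := exists_nat_gt (2 * ((C * (2 / ‖e - 1‖) + 2 * (1 - τ)⁻¹) / C +
    (2 / ‖e ^ 2 - 1‖) / 2))
  have h1 := hupper M
  have h2 := hlower M
  have h3 : ∑ n ∈ range M, ((e ^ (N + n)).re) ^ 2 ≤ (C * (2 / ‖e - 1‖) + 2 * (1 - τ)⁻¹) / C := by
    rw [le_div_iff₀ hC]
    linarith
  linarith

theorem TP_nonneg {a : ℕ → ℝ} (ha : TP 1 a) (i : ℕ) : 0 ≤ a i := by
  have h := ha 1 le_rfl (fun _ => 0) (fun _ => i) (Subsingleton.strictMono _)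
    (Subsingleton.strictMono _)
  rw [mnr_one] at h
  simpa [ent] using h

/-- Totally positive coefficients: no zeros off the real axis. -/
theorem TP_no_nonreal {a : ℕ → ℝ} (ha : ∀ m, TP m a) (ha0 : 0 < a 0) {w : ℂ} (hw : w.im ≠ 0)
    (hsw : HasSum (fun i => (a i : ℂ) * w ^ i) 0) {ρ1 F : ℝ} (hρ1 : ‖w‖ < ρ1)
    (hs1 : Summable fun i => a i * ρ1 ^ i) (hF : HasSum (fun i => a i * (-ρ1) ^ i) F)
    (hF0 : F ≠ 0) : False := by
  have hw0 : w ≠ 0 := by rintro rfl; simp at hw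
  have hρ : 0 < ‖w‖ := norm_pos_iff.2 hw0
  have hρ10 : 0 < ρ1 := hρ.trans hρ1
  have han : ∀ i, 0 ≤ a i := TP_nonneg (ha 1)
  obtain ⟨e, he⟩ : ∃ e : ℂ, e = -((‖w‖ : ℝ) : ℂ) * w⁻¹ := ⟨_, rfl⟩
  have he1 : ‖e‖ = 1 := by
    rw [he, norm_mul, norm_neg, Complex.norm_real, norm_inv, Real.norm_eq_abs, abs_of_pos hρ,
      mul_inv_cancel₀ hρ.ne']
  have heim : e.im ≠ 0 := by
    rw [he]
    have : (-((‖w‖ : ℝ) : ℂ) * w⁻¹).im = ‖w‖ * (w.im / Complex.normSq w) := by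
      rw [← Complex.ofReal_neg, Complex.im_ofReal_mul, Complex.inv_im]
      ring
    rw [this]
    have h2 : 0 < Complex.normSq w := Complex.normSq_pos.2 hw0
    exact mul_ne_zero hρ.ne' (div_ne_zero hw h2.ne')
  obtain ⟨τ, hτ⟩ : ∃ τ : ℝ, τ = ‖w‖ / ρ1 := ⟨_, rfl⟩
  have hτ0 : 0 < τ := by rw [hτ]; positivity
  have hτ1 : τ < 1 := by rw [hτ, div_lt_one hρ10]; exact hρ1
  -- a generic constant
  obtain ⟨C, ⟨hC1, hC2⟩, hCs⟩ : ∃ C : ℝ, C ∈ Set.Ioo (1 : ℝ) 2 ∧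
      C ∈ (Set.range fun n : ℕ => -τ ^ n / (e ^ n).re)ᶜ := by
    have hd := (Set.countable_range fun n : ℕ => -τ ^ n / (e ^ n).re).dense_compl ℝ
    obtain ⟨C, h1, h2⟩ := hd.exists_mem_open isOpen_Ioo (Set.nonempty_Ioo.2 (by norm_num : (1 : ℝ) < 2))
    exact ⟨C, h2, h1⟩
  have hC0 : 0 < C := by linarith
  have hs : ∀ n : ℕ, C * (e ^ n).re + τ ^ n ≠ 0 := by
    intro n h0
    by_cases hr : (e ^ n).re = 0
    · rw [hr, mul_zero, zero_add] at h0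
      exact (pow_pos hτ0 n).ne' h0
    · apply hCs
      refine ⟨n, ?_⟩
      rw [div_eq_iff hr]
      linarith
  -- the input
  obtain ⟨v, hv⟩ : ∃ v : ℕ → ℝ, v = fun n => C * ((w⁻¹) ^ n).re + (-1) ^ n * (ρ1⁻¹) ^ n := ⟨_, rfl⟩
  have hwe : w⁻¹ = ((-‖w‖⁻¹ : ℝ) : ℂ) * e := by
    rw [he]
    have h3 : ((‖w‖ : ℝ) : ℂ) ≠ 0 := by exact_mod_cast hρ.ne'
    push_cast
    field_simp
  have hvs : ∀ n, v n = (-1) ^ n * (‖w‖⁻¹) ^ n * (C * (e ^ n).re + τ ^ n) := by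
    intro n
    rw [hv]
    simp only
    have h3 : ((w⁻¹) ^ n).re = (-1) ^ n * (‖w‖⁻¹) ^ n * (e ^ n).re := by
      rw [hwe, mul_pow, ← Complex.ofReal_pow, Complex.re_ofReal_mul, neg_pow]
    have h4 : (ρ1⁻¹) ^ n = (‖w‖⁻¹) ^ n * τ ^ n := by
      rw [hτ, ← mul_pow]
      congr 1
      field_simp
    rw [h3, h4]
    ring
  have hvne : ∀ j, v j ≠ 0 := by
    intro j
    rw [hvs]
    refine mul_ne_zero (mul_ne_zero (pow_ne_zero _ (by norm_num)) (pow_ne_zero _ ?_)) (hs j)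
    exact inv_ne_zero hρ.ne'
  have hflat : {j : ℕ | 0 < v j * v (j + 1)}.Infinite := by
    rw [Set.infinite_iff_exists_gt]
    intro N
    obtain ⟨n, hn, hlt⟩ := osc he1 heim hC0 hτ0.le hτ1 hs (N + 1)
    refine ⟨n, ?_, by omega⟩
    show 0 < v n * v (n + 1)
    have h3 : v n * v (n + 1) = (‖w‖⁻¹) ^ (2 * n + 1) *
        -((C * (e ^ n).re + τ ^ n) * (C * (e ^ (n + 1)).re + τ ^ (n + 1))) := by
      rw [hvs n, hvs (n + 1)]
      have h4 : ((-1 : ℝ) ^ n) * (-1) ^ (n + 1) = -1 := by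
        rw [← pow_add, show n + (n + 1) = 2 * n + 1 by ring, pow_add, pow_mul]
        norm_num
      calc _ = (((-1 : ℝ) ^ n) * (-1) ^ (n + 1)) * (‖w‖⁻¹) ^ (2 * n + 1) *
          ((C * (e ^ n).re + τ ^ n) * (C * (e ^ (n + 1)).re + τ ^ (n + 1))) := by ring
        _ = _ := by rw [h4]; ring
    rw [h3]
    apply mul_pos (by positivity)
    linarith
  -- the output
  obtain ⟨u, hu⟩ : ∃ u : ℕ → ℕ → ℝ, u = fun n i =>
    a i * (C * ((w⁻¹) ^ n * w ^ i).re + (-1) ^ n * (ρ1⁻¹) ^ n * (-ρ1) ^ i) := ⟨_, rfl⟩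
  have husum : ∀ n, HasSum (u n) ((-1) ^ n * (ρ1⁻¹) ^ n * F) := by
    intro n
    have h3 := hsw.mul_left ((w⁻¹) ^ n)
    rw [mul_zero] at h3
    have h4 := (Complex.hasSum_re h3).mul_left C
    rw [Complex.zero_re, mul_zero] at h4
    have h5 := hF.mul_left ((-1) ^ n * (ρ1⁻¹) ^ n)
    have h6 := h4.add h5
    rw [zero_add] at h6
    have e1 : u n = fun i => C * ((w⁻¹) ^ n * ((a i : ℂ) * w ^ i)).re +
        (-1) ^ n * (ρ1⁻¹) ^ n * (a i * (-ρ1) ^ i) := by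
      funext i
      rw [hu]
      simp only
      have h7 : ((w⁻¹) ^ n * ((a i : ℂ) * w ^ i)).re = a i * ((w⁻¹) ^ n * w ^ i).re := by
        rw [show (w⁻¹) ^ n * ((a i : ℂ) * w ^ i) = (a i : ℂ) * ((w⁻¹) ^ n * w ^ i) by ring,
          Complex.re_ofReal_mul]
      rw [h7]
      ring
    rw [e1]
    exact h6
  have huv : ∀ n i, i ≤ n → u n i = a i * v (n - i) := by
    intro n i hi
    rw [hu, hv]
    simp only
    obtain ⟨k, rfl⟩ := Nat.exists_eq_add_of_le hi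
    rw [Nat.add_sub_cancel_left]
    have h3 : (w⁻¹) ^ (i + k) * w ^ i = (w⁻¹) ^ k := by
      rw [pow_add, mul_right_comm, ← mul_pow, inv_mul_cancel₀ hw0, one_pow, one_mul]
    have h4 : (-1 : ℝ) ^ (i + k) * (ρ1⁻¹) ^ (i + k) * (-ρ1) ^ i = (-1) ^ k * (ρ1⁻¹) ^ k := by
      have h5 : (-1 : ℝ) ^ (i + k) * (ρ1⁻¹) ^ (i + k) * (-ρ1) ^ i =
          ((-1) * ρ1⁻¹ * (-ρ1)) ^ i * ((-1) ^ k * (ρ1⁻¹) ^ k) := by
        rw [mul_pow, mul_pow, pow_add, pow_add]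
        ring
      rw [h5, show (-1) * ρ1⁻¹ * (-ρ1) = ρ1⁻¹ * ρ1 by ring, inv_mul_cancel₀ hρ10.ne', one_pow,
        one_mul]
    rw [h3, h4]
  have hysum : ∀ n, ∑ j ∈ range (n + 1), a (n - j) * v j = ∑ i ∈ range (n + 1), u n i := by
    intro n
    rw [← Finset.sum_flip (fun i => u n i)]
    refine Finset.sum_congr rfl fun j hj => ?_
    have hj' : j ≤ n := Nat.lt_succ_iff.1 (Finset.mem_range.1 hj)
    rw [huv n (n - j) (Nat.sub_le _ _), Nat.sub_sub_self hj']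
  -- the tail
  have hub : ∀ n i, n ≤ i → |u n i| ≤ 3 * (ρ1⁻¹) ^ n * (a i * ρ1 ^ i) := by
    intro n i hi
    obtain ⟨k, rfl⟩ := Nat.exists_eq_add_of_le hi
    rw [hu]
    simp only
    rw [abs_mul, abs_of_nonneg (han _)]
    have h3 : |((w⁻¹) ^ n * w ^ (n + k)).re| ≤ ρ1 ^ k := by
      have h4 : (w⁻¹) ^ n * w ^ (n + k) = w ^ k := by
        rw [pow_add, ← mul_assoc, ← mul_pow, inv_mul_cancel₀ hw0, one_pow, one_mul]
      rw [h4]
      refine (Complex.abs_re_le_norm _).trans ?_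
      rw [norm_pow]
      exact pow_le_pow_left₀ hρ.le hρ1.le k
    have h5 : |(-1 : ℝ) ^ n * (ρ1⁻¹) ^ n * (-ρ1) ^ (n + k)| = ρ1 ^ k := by
      rw [abs_mul, abs_mul, abs_pow, abs_pow, abs_pow, abs_neg, abs_neg, abs_one, one_pow, one_mul,
        abs_of_pos hρ10, abs_of_pos (inv_pos.2 hρ10), pow_add, ← mul_assoc, ← mul_pow,
        inv_mul_cancel₀ hρ10.ne', one_pow, one_mul]
    have h6 : |C * ((w⁻¹) ^ n * w ^ (n + k)).re + (-1) ^ n * (ρ1⁻¹) ^ n * (-ρ1) ^ (n + k)| ≤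
        3 * ρ1 ^ k := by
      refine (abs_add_le _ _).trans ?_
      rw [h5, abs_mul, abs_of_pos hC0]
      have h7 : 0 < ρ1 ^ k := pow_pos hρ10 k
      nlinarith [abs_nonneg ((w⁻¹) ^ n * w ^ (n + k)).re]
    have h8 : (ρ1⁻¹) ^ n * ρ1 ^ (n + k) = ρ1 ^ k := by
      rw [pow_add, ← mul_assoc, ← mul_pow, inv_mul_cancel₀ hρ10.ne', one_pow, one_mul]
    calc a (n + k) * |C * ((w⁻¹) ^ n * w ^ (n + k)).re + (-1) ^ n * (ρ1⁻¹) ^ n * (-ρ1) ^ (n + k)|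
        ≤ a (n + k) * (3 * ρ1 ^ k) := mul_le_mul_of_nonneg_left h6 (han _)
      _ = 3 * (ρ1⁻¹) ^ n * (a (n + k) * ρ1 ^ (n + k)) := by rw [← h8]; ring
  obtain ⟨T, hT⟩ : ∃ T : ℕ → ℝ, T = fun n => ∑' k, a (k + (n + 1)) * ρ1 ^ (k + (n + 1)) := ⟨_, rfl⟩
  have hTlim : Tendsto T atTop (𝓝 0) := by
    have h3 := tendsto_sum_nat_add (fun i => a i * ρ1 ^ i)
    have h4 := h3.comp (tendsto_add_atTop_nat 1)
    rw [hT]
    exact h4
  have hF3 : 0 < |F| / 3 := by positivity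
  obtain ⟨n0, hn0⟩ := eventually_atTop.1 (hTlim.eventually (gt_mem_nhds hF3))
  -- the flats
  obtain ⟨Z, hZsub, hZcard⟩ := hflat.exists_subset_card_eq (n0 + 1)
  refine no_alt ha ha0 hvne Z (fun j hj => hZsub hj) hZcard (τ := F) fun n hn => ?_
  rw [hysum n]
  have h3 := (hasSum_nat_add_iff' (n + 1)).2 (husum n)
  have hs1' : Summable fun k => a (k + (n + 1)) * ρ1 ^ (k + (n + 1)) :=
    (summable_nat_add_iff (n + 1)).2 hs1
  have h4 : HasSum (fun k => 3 * (ρ1⁻¹) ^ n * (a (k + (n + 1)) * ρ1 ^ (k + (n + 1))))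
      (3 * (ρ1⁻¹) ^ n * T n) := by
    rw [hT]
    exact hs1'.hasSum.mul_left _
  have h5 := h3.norm_le_of_bounded h4 fun k => by
    rw [Real.norm_eq_abs]
    exact hub n (k + (n + 1)) (by omega)
  rw [Real.norm_eq_abs] at h5
  have hTn := hn0 n hn
  have hρn : 0 < (ρ1⁻¹) ^ n := by positivity
  have hFa : 0 < |F| := abs_pos.2 hF0
  have h6 : |(-1) ^ n * (ρ1⁻¹) ^ n * F - ∑ i ∈ range (n + 1), u n i| < (ρ1⁻¹) ^ n * |F| := by
    refine h5.trans_lt ?_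
    nlinarith
  have hsgn : ((-1 : ℝ) ^ n) * (-1) ^ n = 1 := by
    rw [← mul_pow]
    norm_num
  have h7 : |F * (-1) ^ n * ((-1) ^ n * (ρ1⁻¹) ^ n * F - ∑ i ∈ range (n + 1), u n i)| <
      (ρ1⁻¹) ^ n * |F| * |F| := by
    rw [abs_mul, abs_mul, abs_pow, abs_neg, abs_one, one_pow, mul_one]
    nlinarith
  have h8 : F * (-1) ^ n * ((-1) ^ n * (ρ1⁻¹) ^ n * F) = (ρ1⁻¹) ^ n * |F| * |F| := by
    have h9 : |F| * |F| = F * F := abs_mul_abs_self F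
    calc _ = ((-1 : ℝ) ^ n * (-1) ^ n) * ((ρ1⁻¹) ^ n * (F * F)) := by ring
      _ = _ := by rw [hsgn, ← h9]; ring
  have h10 := (abs_lt.1 h7).2
  rw [mul_sub, h8] at h10
  linarith

end Pool.Agent.TH809.TP
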