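import Pool.Agent.TH809.TP.Poly
import Pool.Agent.TH809.TP.Osc

set_option autoImplicit false

/-!
# General facts: scaling, real rooted polynomials, entire functions
-/

namespace Pool.Agent.TH809.TP

open Finset Filter Topology Complex Polynomial

theorem mnr_scale {a : ℕ → ℝ} {lam μ : ℝ} (hμ : 0 < μ) {k : ℕ} (r c : Fin k → ℕ) :
    mnr (fun j => lam * μ ^ j * a j) r c =
      (∏ p, lam * (μ⁻¹) ^ (r p)) * ((∏ q, μ ^ (c q)) * mnr a r c) := by
  unfold mnr
  rw [← Matrix.det_mul_row, ← Matrix.det_mul_column]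
  congr 1
  ext p q
  simp only [Matrix.of_apply]
  unfold ent
  split_ifs with h
  · have h1 : μ ^ (c q) = μ ^ (c q - r p) * μ ^ (r p) := by
      rw [← pow_add, Nat.sub_add_cancel h]
    have h2 : (μ⁻¹) ^ (r p) * μ ^ (r p) = 1 := by
      rw [← mul_pow, inv_mul_cancel₀ hμ.ne', one_pow]
    rw [h1]
    linear_combination (-(lam * μ ^ (c q - r p) * a (c q - r p))) * h2
  · simp

theorem TP_scale {m : ℕ} {a : ℕ → ℝ} {lam μ : ℝ} (hl : 0 ≤ lam) (hμ : 0 < μ) (h : TP m a) :
    TP m (fun j => lam * μ ^ j * a j) := by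
  intro k hk r c hr hc
  rw [mnr_scale hμ]
  refine mul_nonneg (Finset.prod_nonneg fun p _ => by positivity)
    (mul_nonneg (Finset.prod_nonneg fun q _ => by positivity) (h k hk r c hr hc))

/-- Polynomials with only nonpositive roots. -/
theorem TP_realrooted (m : ℕ) : ∀ (d : ℕ) (P : ℝ[X]), P.natDegree = d → 0 ≤ P.leadingCoeff →
    (∀ a : ℂ, aeval a P = 0 → a.im = 0 ∧ a.re ≤ 0) → TP m P.coeff := by
  intro d
  induction d with
  | zero =>
    intro P hd hl _
    have h1 := Polynomial.eq_C_of_natDegree_eq_zero hd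
    rw [h1] at hl ⊢
    rw [Polynomial.leadingCoeff_C] at hl
    exact TP_const hl m
  | succ d ih =>
    intro P hd hl hS
    obtain ⟨a, ha⟩ := Complex.exists_root (f := P.map (algebraMap ℝ ℂ)) (by
      rw [Polynomial.degree_map, Polynomial.degree_eq_natDegree (by rintro rfl; simp at hd), hd]
      exact_mod_cast Nat.succ_pos d)
    have haP : aeval a P = 0 := by
      rw [Polynomial.IsRoot, Polynomial.eval_map_algebraMap] at ha
      exact ha
    have hP0 : P ≠ 0 := by rintro rfl; simp at hd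
    obtain ⟨him, hre⟩ := hS a haP
    have hare : a = ((a.re : ℝ) : ℂ) := by
      apply Complex.ext <;> simp [him]
    have hroot : P.IsRoot a.re := by
      rw [hare] at haP
      have h1 : aeval ((a.re : ℝ) : ℂ) P = ((P.eval a.re : ℝ) : ℂ) := by
        have := Polynomial.aeval_algebraMap_apply ℂ a.re P
        simpa using this
      rw [h1] at haP
      exact_mod_cast haP
    obtain ⟨Q, hQ⟩ := Polynomial.dvd_iff_isRoot.2 hroot
    have hQ0 : Q ≠ 0 := by rintro rfl; rw [mul_zero] at hQ; exact hP0 hQ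
    have hX : (X - C a.re : ℝ[X]) ≠ 0 := Polynomial.X_sub_C_ne_zero _
    have hdQ : Q.natDegree = d := by
      have := hd
      rw [hQ, Polynomial.natDegree_mul hX hQ0, Polynomial.natDegree_X_sub_C] at this
      omega
    have hlQ : 0 ≤ Q.leadingCoeff := by
      have := hl
      rw [hQ, Polynomial.leadingCoeff_mul, Polynomial.leadingCoeff_X_sub_C, one_mul] at this
      exact this
    have hTQ := ih Q hdQ hlQ fun b hb => hS b (by rw [hQ, map_mul, hb, mul_zero])
    have e : P = (C (-a.re) + C 1 * X) * Q := by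
      rw [hQ]
      congr 1
      simp only [map_neg, map_one, one_mul]
      ring
    rw [e, ← conv_coeff, lin_coeff]
    exact (TP_lin (by linarith) zero_le_one m).conv hTQ

theorem mnr_shift {a : ℕ → ℝ} {p : ℕ} (hp : ∀ j < p, a j = 0) {k : ℕ} (r c : Fin k → ℕ) :
    mnr (fun j => a (p + j)) r c = mnr a r (fun q => c q + p) := by
  unfold mnr
  congr 1
  ext x y
  simp only [Matrix.of_apply]
  unfold ent
  by_cases h1 : r x ≤ c y
  · rw [if_pos h1, if_pos (by omega)]
    show a (p + (c y - r x)) = a (c y + p - r x)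
    congr 1
    omega
  · rw [if_neg h1]
    by_cases h2 : r x ≤ c y + p
    · rw [if_pos h2, hp _ (by omega)]
    · rw [if_neg h2]

theorem TP_shift {m : ℕ} {a : ℕ → ℝ} {p : ℕ} (hp : ∀ j < p, a j = 0) (h : TP m a) :
    TP m (fun j => a (p + j)) := by
  intro k hk r c hr hc
  rw [mnr_shift hp]
  exact h k hk r _ hr fun x y hxy => Nat.add_lt_add_right (hc hxy) p

/-- Zeros of entire functions with totally positive coefficients. -/
theorem zeros_of_TP {a : ℕ → ℝ} (ha : ∀ m, TP m a) {f : ℂ → ℂ} (hd : Differentiable ℂ f)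
    (hf : ∀ x : ℂ, HasSum (fun i => (a i : ℂ) * x ^ i) (f x)) (hne : ∃ i, a i ≠ 0) (w : ℂ)
    (hw : f w = 0) : w.im = 0 ∧ w.re ≤ 0 := by
  classical
  have han : ∀ i, 0 ≤ a i := TP_nonneg (ha 1)
  obtain ⟨p, hp, hpmin⟩ : ∃ p, a p ≠ 0 ∧ ∀ j < p, a j = 0 := by
    refine ⟨Nat.find hne, Nat.find_spec hne, fun j hj => ?_⟩
    by_contra h
    exact Nat.find_min hne hj h
  have hppos : 0 < a p := lt_of_le_of_ne (han p) (Ne.symm hp)
  -- positivity on the positive half line
  have hreal : ∀ x : ℝ, HasSum (fun i => a i * x ^ i) ((f (x : ℂ)).re) := by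
    intro x
    have h2 := Complex.hasSum_re (hf (x : ℂ))
    have e2 : ∀ i, ((((a i : ℝ) : ℂ) * ((x : ℝ) : ℂ) ^ i).re) = a i * x ^ i := by
      intro i
      rw [← Complex.ofReal_pow, ← Complex.ofReal_mul, Complex.ofReal_re]
    simpa only [e2] using h2
  have himag : ∀ x : ℝ, (f (x : ℂ)).im = 0 := by
    intro x
    have h2 := Complex.hasSum_im (hf (x : ℂ))
    have e2 : ∀ i, ((((a i : ℝ) : ℂ) * ((x : ℝ) : ℂ) ^ i).im) = 0 := by
      intro i
      rw [← Complex.ofReal_pow, ← Complex.ofReal_mul, Complex.ofReal_im]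
    simp only [e2] at h2
    exact h2.unique hasSum_zero
  have hpos : ∀ x : ℝ, 0 < x → f (x : ℂ) ≠ 0 := by
    intro x hx h0
    have h1 := hreal x
    rw [h0, Complex.zero_re] at h1
    have h2 := le_hasSum h1 p (fun j _ => mul_nonneg (han j) (pow_nonneg hx.le j))
    have h3 : 0 < a p * x ^ p := mul_pos hppos (pow_pos hx p)
    linarith
  have him : w.im = 0 := by
    by_contra him
    have hw0 : w ≠ 0 := by rintro rfl; simp at him
    -- a large radius
    obtain ⟨x, hx, hFx⟩ : ∃ x : ℝ, ‖w‖ < x ∧ f (((-x : ℝ)) : ℂ) ≠ 0 := by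
      by_contra hcon
      push Not at hcon
      have han' : AnalyticOnNhd ℂ f Set.univ := fun z _ => hd.analyticAt z
      have h1 : ∃ᶠ z in 𝓝[≠] (((-(‖w‖ + 1) : ℝ)) : ℂ), f z = 0 := by
        have h2 : Tendsto (fun k : ℕ => (((-(‖w‖ + 1 + 1 / ((k : ℝ) + 1)) : ℝ)) : ℂ)) atTop
            (𝓝[≠] (((-(‖w‖ + 1) : ℝ)) : ℂ)) := by
          rw [tendsto_nhdsWithin_iff]
          constructor
          · apply (Complex.continuous_ofReal.tendsto _).comp
            have h3 : Tendsto (fun k : ℕ => 1 / ((k : ℝ) + 1)) atTop (𝓝 0) :=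
              tendsto_one_div_add_atTop_nhds_zero_nat
            have h4 := (h3.const_add (‖w‖ + 1)).neg
            simpa using h4
          · refine Eventually.of_forall fun k => ?_
            simp only [Set.mem_compl_iff, Set.mem_singleton_iff]
            intro h
            have h5 : (-(‖w‖ + 1 + 1 / ((k : ℝ) + 1)) : ℝ) = -(‖w‖ + 1) := by exact_mod_cast h
            have h6 : 0 < 1 / ((k : ℝ) + 1) := by positivity
            linarith
        refine h2.frequently (Eventually.frequently (Eventually.of_forall fun k => ?_))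
        apply hcon
        have h6 : 0 < 1 / ((k : ℝ) + 1) := by positivity
        linarith
      have h2 := han'.eqOn_zero_of_preconnected_of_frequently_eq_zero isPreconnected_univ
        (Set.mem_univ _) h1
      exact hpos 1 one_pos (h2 (Set.mem_univ _))
    have hx0 : 0 < x := (norm_nonneg w).trans_lt hx
    -- remove the zero at the origin
    have hsum : ∀ y : ℂ, y ≠ 0 → HasSum (fun i => ((a (p + i) : ℝ) : ℂ) * y ^ i) (f y / y ^ p) := by
      intro y hy
      have h1 := (hasSum_nat_add_iff' p).2 (hf y)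
      have h2 : ∑ i ∈ range p, ((a i : ℝ) : ℂ) * y ^ i = 0 := by
        apply Finset.sum_eq_zero
        intro i hi
        rw [hpmin i (Finset.mem_range.1 hi)]
        simp
      rw [h2, sub_zero] at h1
      have h3 := h1.div_const (y ^ p)
      have e : (fun i => ((a (p + i) : ℝ) : ℂ) * y ^ i) =
          fun i => (((a (i + p) : ℝ) : ℂ) * y ^ (i + p)) / y ^ p := by
        funext i
        rw [add_comm p i, pow_add, ← mul_assoc, mul_div_cancel_right₀ _ (pow_ne_zero p hy)]
      rw [e]
      exact h3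
    have h1 := hsum w hw0
    rw [hw, zero_div] at h1
    have hre : ∀ y : ℝ, y ≠ 0 → HasSum (fun i => a (p + i) * y ^ i) ((f (y : ℂ) / (y : ℂ) ^ p).re) := by
      intro y hy
      have h2 := Complex.hasSum_re (hsum (y : ℂ) (by exact_mod_cast hy))
      have e2 : ∀ i, ((((a (p + i) : ℝ) : ℂ) * ((y : ℝ) : ℂ) ^ i).re) = a (p + i) * y ^ i := by
        intro i
        rw [← Complex.ofReal_pow, ← Complex.ofReal_mul, Complex.ofReal_re]
      simpa only [e2] using h2
    refine TP_no_nonreal (a := fun j => a (p + j)) (fun m => TP_shift hpmin (ha m)) hppos him h1 hx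
      (hre x hx0.ne').summable (hre (-x) (by linarith)) ?_
    intro h4
    apply hFx
    have h5 : f (((-x : ℝ)) : ℂ) = (((f (((-x : ℝ)) : ℂ)).re : ℝ) : ℂ) := by
      apply Complex.ext
      · simp
      · rw [himag, Complex.ofReal_im]
    rw [h5, ← Complex.ofReal_pow, ← Complex.ofReal_div, Complex.ofReal_re] at h4
    have hxp : (-x) ^ p ≠ 0 := pow_ne_zero p (by linarith)
    rcases div_eq_zero_iff.1 h4 with h6 | h6
    · rw [h5, h6, Complex.ofReal_zero]
    · exact absurd h6 hxp
  refine ⟨him, ?_⟩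
  by_contra hre
  push Not at hre
  have : w = ((w.re : ℝ) : ℂ) := by apply Complex.ext <;> simp [him]
  rw [this] at hw
  exact hpos _ hre hw

end Pool.Agent.TH809.TP
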