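import Pool.Agent.TH809.TP.Gen
import Pool.Agent.TH809.TP.App
import Pool.Agent.W355.GJ.Crit

set_option autoImplicit false

/-!
# The criterion for minors, generic form
-/

namespace Pool.Agent.TH809.TP.GC

open Pool.Agent.H471R3.GJ hiding IsL SStir
open Pool.Agent.W355.GJ
open Pool.Agent.W355.GJ.Crit (gamma Scale gam_eq)
open Complex Filter Topology Polynomial Finset
open Pool.Agent.H24R2.JP (low_iter_add)

/-- Taylor coefficients of the `n`-th derivative of `FF D` -/
noncomputable def cD (D : Dat) (n j : ℕ) : ℝ := gam D (n + j) / (j.factorial : ℝ)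

/-- All minors of order `m` are nonnegative. -/
def Minors (m : ℕ) (a : ℕ → ℝ) : Prop := ∀ r c : Fin m → ℕ, StrictMono r → StrictMono c → 0 ≤ mnr a r c

theorem minors_of_TP {m : ℕ} {a : ℕ → ℝ} (h : TP m a) : Minors m a := fun r c hr hc => h m le_rfl r c hr hc

theorem TP_of_minors {a : ℕ → ℝ} (h : ∀ m, Minors m a) (m : ℕ) : TP m a := fun k _ r c hr hc => h k r c hr hc

section

variable (D : Dat) (h : IsL D)
include h

theorem hasSum_iter (n : ℕ) (x : ℂ) :
    HasSum (fun i => ((cD D n i : ℝ) : ℂ) * x ^ i) (iteratedDeriv n (FF D) x) := by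
  obtain ⟨hd, -, -, h0⟩ := T.b1T D h
  have hD : Differentiable ℂ (iteratedDeriv n (FF D)) :=
    (hd.contDiff (n := ⊤)).differentiable_iteratedDeriv n (by exact_mod_cast WithTop.coe_lt_top _)
  have hs := Complex.hasSum_taylorSeries_of_entire hD 0 x
  simp only [low_iter_add, h0, sub_zero] at hs
  have e : (fun i => ((cD D n i : ℝ) : ℂ) * x ^ i) =
      fun i : ℕ => ((i.factorial : ℂ))⁻¹ • x ^ i • ((gam D (n + i) : ℝ) : ℂ) := by
    funext i
    unfold cD
    rw [smul_eq_mul, smul_eq_mul]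
    push_cast
    ring
  rw [e]
  exact hs

theorem iter_ne {n : ℕ} (hn : ∀ j, n ≤ j → 0 < gam D j) {x : ℝ} (hx : 0 ≤ x) :
    iteratedDeriv n (FF D) (x : ℂ) ≠ 0 := by
  intro hz
  have hs := Complex.hasSum_re (hasSum_iter D h n (x : ℂ))
  have e2 : ∀ i, ((((cD D n i : ℝ) : ℂ) * ((x : ℝ) : ℂ) ^ i).re) = cD D n i * x ^ i := by
    intro i
    rw [← Complex.ofReal_pow, ← Complex.ofReal_mul, Complex.ofReal_re]
  simp only [e2, hz, Complex.zero_re] at hs
  have hpos : ∀ i, 0 < cD D n i := fun i => by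
    unfold cD
    have := hn (n + i) (by omega)
    positivity
  have h1 := le_hasSum hs 0 (fun j _ => mul_nonneg (hpos j).le (pow_nonneg hx j))
  rw [pow_zero, mul_one] at h1
  exact absurd h1 (not_le.2 (hpos 0))

theorem al_pos : 0 < al D := by
  unfold al
  have h1 := h.c_pos
  have h2 := h.w_large
  have h3 := h.κ_pos
  have h4 := h.A_nonneg
  have h5 : 0 < D.w := by linarith
  positivity

/-- minors of exponential order -/
theorem free : ∃ C : ℝ, 0 < C ∧ ∀ m n : ℕ, C * Real.log (m + 1) ≤ n → TP m (cD D n) := by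
  obtain ⟨k0, hk0⟩ := T.goodT D h
  obtain ⟨N1, hN1⟩ := T.chainT D h
  have hal := al_pos D h
  have hlog2 : 0 < Real.log 2 := Real.log_pos (by norm_num)
  obtain ⟨M, hM⟩ : ∃ M : ℕ, M = max k0 N1 := ⟨_, rfl⟩
  obtain ⟨C, hC⟩ : ∃ C : ℝ, C = max (2 / al D) ((M : ℝ) / Real.log 2) := ⟨_, rfl⟩
  refine ⟨C, by rw [hC]; exact lt_max_of_lt_left (by positivity), fun m n hmn => ?_⟩
  rcases Nat.eq_zero_or_pos m with rfl | hm
  · exact TP_zero _
  have hm1 : (1 : ℝ) ≤ m := by exact_mod_cast hm
  have hlog : Real.log 2 ≤ Real.log (m + 1) := Real.log_le_log (by norm_num) (by linarith)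
  have hlogp : 0 < Real.log (m + 1) := by linarith
  have hMn : M ≤ n := by
    have h1 : (M : ℝ) ≤ C * Real.log 2 := by
      rw [← div_le_iff₀ hlog2, hC]
      exact le_max_right _ _
    have h2 : C * Real.log 2 ≤ C * Real.log (m + 1) := by
      apply mul_le_mul_of_nonneg_left hlog
      rw [hC]
      exact le_trans (by positivity) (le_max_left _ _)
    exact_mod_cast (h1.trans h2).trans hmn
  have hk : k0 ≤ n := (by rw [hM] at hMn; exact (le_max_left _ _).trans hMn)
  have hN : N1 ≤ n := (by rw [hM] at hMn; exact (le_max_right _ _).trans hMn)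
  have hpos : ∀ j, n ≤ j → 0 < gam D j := fun j hj => (hk0 j (hk.trans hj)).1
  have hgood := (hk0 n hk).2
  have hlow : 2 * Real.log (m + 1) ≤ al D * n := by
    have h1 : 2 / al D * Real.log (m + 1) ≤ n := by
      refine le_trans (mul_le_mul_of_nonneg_right ?_ hlogp.le) hmn
      rw [hC]
      exact le_max_left _ _
    have h2 := mul_le_mul_of_nonneg_left h1 hal.le
    have h3 : al D * (2 / al D * Real.log (m + 1)) = 2 * Real.log (m + 1) := by
      field_simp
    linarith
  have hR : ((m : ℝ) + 1) ^ 2 / 4 ≤ Real.exp (al D * n) := by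
    have h1 : ((m : ℝ) + 1) ^ 2 = Real.exp (2 * Real.log (m + 1)) := by
      rw [two_mul, Real.exp_add, Real.exp_log (by linarith)]
      ring
    have h2 : ((m : ℝ) + 1) ^ 2 ≤ Real.exp (al D * n) := by
      rw [h1]
      exact Real.exp_le_exp.2 hlow
    have h3 : 0 ≤ ((m : ℝ) + 1) ^ 2 := by positivity
    linarith
  refine TP_app (n := 0) Pool.Agent.H24R2.JP.der Pool.Agent.H24R2.JP.gl hgood hm hR ?_ ?_ ?_
  · intro j
    rw [low_iter_add, Nat.zero_add, (T.b1T D h).2.2.2 (n + j)]
    congr 1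
    unfold cD
    have hj : (j.factorial : ℝ) ≠ 0 := by exact_mod_cast j.factorial_ne_zero
    rw [mul_div_cancel₀ _ hj]
  · unfold cD
    have := hpos n le_rfl
    simpa using this
  · intro w hw h0
    rw [iteratedDeriv_zero] at h0
    have him : w.im = 0 := by
      by_contra him
      exact absurd (hN1 n hN w him h0) (not_lt.2 hw)
    refine ⟨him, ?_⟩
    by_contra hre
    push Not at hre
    have : w = ((w.re : ℝ) : ℂ) := by apply Complex.ext <;> simp [him]
    rw [this] at h0
    exact iter_ne D h hpos hre.le h0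

/-- Under the Riemann hypothesis all minors are nonnegative. -/
theorem TP_of_RH (hRH : ∀ z : ℂ, D.XX z = 0 → z.re = 0) (m n : ℕ) : TP m (cD D n) := by
  have hNH := T.nh1T D h hRH
  obtain ⟨k0, hk0, -⟩ := T.gamT D h
  have hcoef : ∀ d j : ℕ, (jensen D d n).coeff j =
      if j ≤ d then (d.choose j : ℝ) * gam D (n + j) else 0 := by
    intro d j
    unfold jensen
    rw [Polynomial.finsetSum_coeff]
    simp only [Polynomial.coeff_C_mul_X_pow]
    split_ifs with hj
    · rw [Finset.sum_eq_single j]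
      · rw [if_pos rfl]
      · intro i _ hij
        rw [if_neg (Ne.symm hij)]
      · intro hcon
        exfalso
        apply hcon
        rw [Finset.mem_range]
        omega
    · apply Finset.sum_eq_zero
      intro i hi
      rw [Finset.mem_range] at hi
      rw [if_neg (by omega)]
  have hTP : ∀ d, k0 ≤ d → TP m (fun j => 1 * ((d : ℝ)⁻¹) ^ j * (jensen D d n).coeff j) := by
    intro d hd
    rcases Nat.eq_zero_or_pos d with rfl | hd0
    · -- degree zero
      have h1 : (jensen D 0 n) = C (gam D n) := by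
        unfold jensen
        simp
      rw [h1]
      have h2 : 0 < gam D n := hk0 n (by omega)
      have h3 : (fun j => 1 * (((0 : ℕ) : ℝ)⁻¹) ^ j * (C (gam D n) : ℝ[X]).coeff j) =
          (C (gam D n) : ℝ[X]).coeff := by
        funext j
        rcases j with _ | j
        · simp
        · simp [Polynomial.coeff_C]
      rw [h3]
      exact TP_const h2.le m
    · apply TP_scale zero_le_one (by positivity)
      have hlead : (jensen D d n).coeff d = gam D (n + d) := by
        rw [hcoef, if_pos le_rfl, Nat.choose_self]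
        simp
      have hpos : 0 < gam D (n + d) := hk0 (n + d) (by omega)
      have hnd : (jensen D d n).natDegree = d := by
        apply Polynomial.natDegree_eq_of_le_of_coeff_ne_zero
        · rw [Polynomial.natDegree_le_iff_coeff_eq_zero]
          intro N hN
          rw [hcoef, if_neg (by omega)]
        · rw [hlead]
          exact hpos.ne'
      refine TP_realrooted m d _ hnd ?_ ?_
      · rw [Polynomial.leadingCoeff, hnd, hlead]
        exact hpos.le
      · rcases hNH d n with h1 | h1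
        · exfalso
          rw [h1, Polynomial.coeff_zero] at hlead
          linarith
        · exact h1
  refine TP_limit (eventually_atTop.2 ⟨k0, hTP⟩) fun j => ?_
  have h1 : Tendsto (fun d : ℕ => (d.choose j : ℝ) * ((d : ℝ)⁻¹) ^ j) atTop
      (𝓝 ((j.factorial : ℝ)⁻¹)) := by
    have h2 := isEquivalent_choose j
    have h3 := h2.mul (Asymptotics.IsEquivalent.refl (u := fun d : ℕ => ((d : ℝ)⁻¹) ^ j))
    refine (h3.tendsto_nhds_iff).2 ?_
    refine (tendsto_const_nhds (x := (j.factorial : ℝ)⁻¹)).congr' ?_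
    filter_upwards [eventually_gt_atTop 0] with d hd
    have hd0 : (d : ℝ) ≠ 0 := by exact_mod_cast hd.ne'
    simp only [Pi.mul_apply]
    rw [inv_pow]
    field_simp
  have h2 := h1.mul_const (gam D (n + j))
  have e : cD D n j = (j.factorial : ℝ)⁻¹ * gam D (n + j) := by
    unfold cD
    rw [div_eq_inv_mul]
  rw [e]
  refine h2.congr' ?_
  filter_upwards [eventually_ge_atTop j] with d hd
  rw [hcoef, if_pos hd]
  ring

theorem RH_of_TP (hTP : ∀ m, TP m (cD D 0)) : ∀ z : ℂ, D.XX z = 0 → z.re = 0 := by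
  obtain ⟨hd, hX, -, -⟩ := T.b1T D h
  obtain ⟨k0, hk0, -⟩ := T.gamT D h
  intro z hz
  have h1 := zeros_of_TP hTP hd (fun x => by
    have := hasSum_iter D h 0 x
    rwa [iteratedDeriv_zero] at this) ⟨k0, by
      have := hk0 k0 le_rfl
      unfold cD
      rw [Nat.zero_add]
      positivity⟩ (z ^ 2) (by rw [hX]; exact hz)
  have e1 : (z ^ 2).im = 2 * (z.re * z.im) := by
    rw [pow_two, Complex.mul_im]
    ring
  have e2 : (z ^ 2).re = z.re ^ 2 - z.im ^ 2 := by
    rw [pow_two, Complex.mul_re]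
    ring
  rw [e1, e2] at h1
  by_contra hre
  have h3 : z.im = 0 := by
    rcases mul_eq_zero.1 h1.1 with h4 | h4
    · norm_num at h4
    · rcases mul_eq_zero.1 h4 with h5 | h5
      · exact absurd h5 hre
      · exact h5
  rw [h3] at h1
  have h6 : 0 < z.re ^ 2 := by positivity
  have := h1.2
  nlinarith

theorem critD : ∃ C : ℝ, 0 < C ∧ (∀ m n : ℕ, C * Real.log (m + 1) ≤ n → Minors m (cD D n)) ∧
    ((∀ z : ℂ, D.XX z = 0 → z.re = 0) ↔
      ∀ m n : ℕ, (n : ℝ) < C * Real.log (m + 1) → Minors m (cD D n)) := by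
  obtain ⟨C, hC, h1⟩ := free D h
  refine ⟨C, hC, fun m n hmn => minors_of_TP (h1 m n hmn), fun hRH m n _ =>
    minors_of_TP (TP_of_RH D h hRH m n), fun hm => ?_⟩
  refine RH_of_TP D h (TP_of_minors fun m => ?_)
  rcases lt_or_ge (((0 : ℕ) : ℝ)) (C * Real.log (m + 1)) with h2 | h2
  · exact hm m 0 h2
  · exact minors_of_TP (h1 m 0 h2)

end

/-- The Taylor coefficients for a function of parity `r`. -/
noncomputable def cF (r : ℕ) (F : ℂ → ℂ) (n j : ℕ) : ℝ := gamma r F (n + j) / (j.factorial : ℝ)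

/-- The criterion. -/
def MCrit (r : ℕ) (F : ℂ → ℂ) (RH : Prop) : Prop := ∃ C : ℝ, 0 < C ∧
  (∀ m n : ℕ, C * Real.log (m + 1) ≤ n → Minors m (cF r F n)) ∧
  (RH ↔ ∀ m n : ℕ, (n : ℝ) < C * Real.log (m + 1) → Minors m (cF r F n))

theorem minors_scale {m : ℕ} {a b : ℕ → ℝ} {lam μ : ℝ} (hl : 0 < lam) (hμ : 0 < μ)
    (hab : ∀ j, b j = lam * μ ^ j * a j) : Minors m b ↔ Minors m a := by
  have e : b = fun j => lam * μ ^ j * a j := funext hab
  have hpos : ∀ r c : Fin m → ℕ, 0 < (∏ p, lam * (μ⁻¹) ^ (r p)) ∧ 0 < (∏ q, μ ^ (c q)) := fun r c =>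
    ⟨Finset.prod_pos fun p _ => by positivity, Finset.prod_pos fun q _ => by positivity⟩
  constructor
  · intro h r c hr hc
    have h1 := h r c hr hc
    rw [e, mnr_scale hμ] at h1
    obtain ⟨h2, h3⟩ := hpos r c
    exact (mul_nonneg_iff_of_pos_left h3).1 ((mul_nonneg_iff_of_pos_left h2).1 h1)
  · intro h r c hr hc
    rw [e, mnr_scale hμ]
    obtain ⟨h2, h3⟩ := hpos r c
    exact mul_nonneg h2.le (mul_nonneg h3.le (h r c hr hc))

theorem mcrit_of_scale {D : Dat} {r : ℕ} {F : ℂ → ℂ} {c K : ℝ} (h : Scale D r F c K) :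
    MCrit r F (∀ z : ℂ, D.XX z = 0 → z.re = 0) := by
  obtain ⟨C, hC, h1, h2⟩ := critD D h.isL
  have key : ∀ m n : ℕ, Minors m (cD D n) ↔ Minors m (cF r F n) := by
    intro m n
    have hc := h.hc
    have hK := h.hK
    refine minors_scale (lam := K * c ^ (2 * n + r)) (μ := c ^ 2) (by positivity) (by positivity) ?_
    intro j
    unfold cD cF
    rw [gam_eq h]
    have : 2 * (n + j) + r = (2 * n + r) + 2 * j := by ring
    rw [this, pow_add, pow_mul]
    ring
  refine ⟨C, hC, fun m n hmn => (key m n).1 (h1 m n hmn), h2.trans ?_⟩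
  constructor
  · intro h3 m n hmn
    exact (key m n).1 (h3 m n hmn)
  · intro h3 m n hmn
    exact (key m n).2 (h3 m n hmn)

theorem mcrit_congr {r : ℕ} {F : ℂ → ℂ} {P Q : Prop} (hPQ : P ↔ Q) (h : MCrit r F P) : MCrit r F Q := by
  obtain ⟨C, hC, h1, h2⟩ := h
  exact ⟨C, hC, h1, hPQ.symm.trans h2⟩

end Pool.Agent.TH809.TP.GC
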