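import Pool.Agent.TH809.TP.Band

set_option autoImplicit false

/-!
# Polynomials with zeros in a sector (Schoenberg)
-/

namespace Pool.Agent.TH809.TP

open Matrix Finset Polynomial

theorem conv_coeff (P Q : ℝ[X]) : conv P.coeff Q.coeff = (P * Q).coeff := by
  funext n
  unfold conv
  rw [Polynomial.coeff_mul]

theorem TP_zero (a : ℕ → ℝ) : TP 0 a := by
  intro k hk r c _ _
  have : k = 0 := by omega
  subst this
  simp [mnr]

theorem TP.mono {m m' : ℕ} (h : m' ≤ m) {a : ℕ → ℝ} (ha : TP m a) : TP m' a :=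
  fun k hk => ha k (hk.trans h)

/-- The roots lie in the closed sector around the negative half line. -/
def Sec (m : ℕ) (P : ℝ[X]) : Prop :=
  ∀ a : ℂ, aeval a P = 0 → Real.cos (Real.pi / (m + 1)) * ‖a‖ ≤ -a.re

theorem lin_coeff (s t : ℝ) : (C s + C t * X : ℝ[X]).coeff = lin s t := by
  funext n
  unfold lin
  rcases n with _ | _ | n
  · simp
  · simp [Polynomial.coeff_C]
  · simp [Polynomial.coeff_C, Polynomial.coeff_X]

theorem three_coeff (s t u : ℝ) (n : ℕ) : (C s + C t * X + C u * X ^ 2 : ℝ[X]).coeff n =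
    if n = 0 then s else if n = 1 then t else if n = 2 then u else 0 := by
  rw [Polynomial.coeff_add, Polynomial.coeff_add, Polynomial.coeff_C_mul, Polynomial.coeff_C_mul,
    Polynomial.coeff_C, Polynomial.coeff_X, Polynomial.coeff_X_pow]
  rcases n with _ | _ | _ | n
  · simp
  · simp
  · simp
  · simp

theorem quad_coeff (ρ ψ : ℝ) :
    (C 1 + C (2 * ρ * Real.cos ψ) * X + C (ρ ^ 2) * X ^ 2 : ℝ[X]).coeff = quad ρ ψ := by
  funext n
  rw [three_coeff]
  rfl

theorem TP_const {s : ℝ} (hs : 0 ≤ s) (m : ℕ) : TP m (C s : ℝ[X]).coeff := by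
  have := TP_lin hs le_rfl m
  rw [← lin_coeff] at this
  simpa using this

/-- **Schoenberg's theorem**: a real polynomial with positive constant term and with its roots in the
sector of half angle `π / (m + 1)` around the negative half line is `m` times positive. -/
theorem TP_sector (m : ℕ) (hm : 1 ≤ m) : ∀ (d : ℕ) (P : ℝ[X]), P.natDegree = d → 0 < P.coeff 0 →
    Sec m P → TP m P.coeff := by
  have hm1 : (1 : ℝ) ≤ m := by exact_mod_cast hm
  have hφ0 : 0 < Real.pi / (m + 1) := by have := Real.pi_pos; positivity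
  have hφ : Real.pi / (m + 1) ≤ Real.pi / 2 := by
    apply div_le_div_of_nonneg_left Real.pi_pos.le (by norm_num) (by linarith)
  have hcos : 0 ≤ Real.cos (Real.pi / (m + 1)) :=
    Real.cos_nonneg_of_neg_pi_div_two_le_of_le (by linarith) hφ
  intro d
  induction d using Nat.strong_induction_on with
  | _ d ih =>
  intro P hd h0 hS
  rcases Nat.eq_zero_or_pos d with rfl | hd0
  · rw [Polynomial.eq_C_of_natDegree_eq_zero hd]
    exact TP_const h0.le m
  -- a root
  obtain ⟨a, ha⟩ := Complex.exists_root (f := P.map (algebraMap ℝ ℂ)) (by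
    rw [Polynomial.degree_map, Polynomial.degree_eq_natDegree (by rintro rfl; simp at h0), hd]
    exact_mod_cast hd0)
  have haP : aeval a P = 0 := by
    rw [Polynomial.IsRoot, Polynomial.eval_map_algebraMap] at ha
    exact ha
  have hP0 : P ≠ 0 := by rintro rfl; simp at h0
  have ha0 : a ≠ 0 := by
    rintro rfl
    have : aeval (0 : ℂ) P = ((P.coeff 0 : ℝ) : ℂ) := by
      rw [Polynomial.aeval_def, Polynomial.eval₂_at_zero]
      rfl
    rw [this] at haP
    have : P.coeff 0 = 0 := by exact_mod_cast haP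
    linarith
  have han : 0 < ‖a‖ := norm_pos_iff.2 ha0
  have hsec := hS a haP
  by_cases him : a.im = 0
  · -- a real root
    have hare : a = ((a.re : ℝ) : ℂ) := by
      apply Complex.ext <;> simp [him]
    have hre0 : a.re ≠ 0 := by
      intro h
      apply ha0
      rw [hare, h]
      simp
    have hneg : a.re < 0 := by
      have : a.re ≤ 0 := by nlinarith [mul_nonneg hcos han.le]
      exact lt_of_le_of_ne this hre0
    have hroot : P.IsRoot a.re := by
      rw [hare] at haP
      have h1 : aeval ((a.re : ℝ) : ℂ) P = ((P.eval a.re : ℝ) : ℂ) := by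
        have := Polynomial.aeval_algebraMap_apply ℂ a.re P
        simpa using this
      rw [h1] at haP
      exact_mod_cast haP
    obtain ⟨Q, hQ⟩ := Polynomial.dvd_iff_isRoot.2 hroot
    -- P = (X - C a.re) * Q
    have hQ0 : Q ≠ 0 := by rintro rfl; rw [mul_zero] at hQ; exact hP0 hQ
    have hX : (X - C a.re : ℝ[X]) ≠ 0 := Polynomial.X_sub_C_ne_zero _
    have hdQ : Q.natDegree + 1 = d := by
      rw [← hd, hQ, Polynomial.natDegree_mul hX hQ0, Polynomial.natDegree_X_sub_C]
      ring
    have hcoef : P.coeff 0 = -a.re * Q.coeff 0 := by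
      rw [hQ, Polynomial.mul_coeff_zero]
      simp
    have hQc : 0 < Q.coeff 0 := by
      by_contra h
      push Not at h
      nlinarith
    have hQS : Sec m Q := by
      intro b hb
      apply hS
      rw [hQ, map_mul, hb, mul_zero]
    have hTQ := ih Q.natDegree (by omega) Q rfl hQc hQS
    have e : P = (C (-a.re) + C 1 * X) * Q := by
      rw [hQ]
      congr 1
      simp only [map_neg, map_one, one_mul]
      ring
    rw [e, ← conv_coeff, lin_coeff]
    exact (TP_lin (by linarith) zero_le_one m).conv hTQ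
  · -- a pair of complex roots
    obtain ⟨Q, hQ⟩ := Polynomial.quadratic_dvd_of_aeval_eq_zero_im_ne_zero P haP him
    have hq0 : (X ^ 2 - C (2 * a.re) * X + C (‖a‖ ^ 2) : ℝ[X]).coeff 0 = ‖a‖ ^ 2 := by
      rw [Polynomial.coeff_add, Polynomial.coeff_C_zero]
      simp
    have hqd : (X ^ 2 - C (2 * a.re) * X + C (‖a‖ ^ 2) : ℝ[X]).natDegree = 2 := by
      compute_degree!
    have hq : (X ^ 2 - C (2 * a.re) * X + C (‖a‖ ^ 2) : ℝ[X]) ≠ 0 := by
      intro h
      rw [h] at hqd
      simp at hqd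
    have hQ0 : Q ≠ 0 := by rintro rfl; rw [mul_zero] at hQ; exact hP0 hQ
    have hdQ : 2 + Q.natDegree = d := by
      rw [← hd, hQ, Polynomial.natDegree_mul hq hQ0, hqd]
    have hcoef : P.coeff 0 = ‖a‖ ^ 2 * Q.coeff 0 := by
      rw [hQ, Polynomial.mul_coeff_zero, hq0]
    have hQc : 0 < Q.coeff 0 := by
      by_contra h
      push Not at h
      have : 0 < ‖a‖ ^ 2 := by positivity
      nlinarith
    have hQS : Sec m Q := by
      intro b hb
      apply hS
      rw [hQ, map_mul, hb, mul_zero]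
    have hTQ := ih Q.natDegree (by omega) Q rfl hQc hQS
    -- the angle
    obtain ⟨ψ, hψ⟩ : ∃ ψ : ℝ, ψ = Real.arccos (-a.re / ‖a‖) := ⟨_, rfl⟩
    have habs : |a.re| < ‖a‖ := Complex.abs_re_lt_norm.2 him
    have hx1 : -1 < -a.re / ‖a‖ := by
      rw [lt_div_iff₀ han]
      linarith [le_abs_self a.re]
    have hx2 : -a.re / ‖a‖ < 1 := by
      rw [div_lt_iff₀ han]
      linarith [neg_abs_le a.re]
    have hcψ : Real.cos ψ = -a.re / ‖a‖ := by
      rw [hψ, Real.cos_arccos hx1.le hx2.le]
    have hψ0 : 0 < ψ := by rw [hψ]; exact Real.arccos_pos.2 hx2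
    have hψπ : ψ ≤ Real.pi := by rw [hψ]; exact Real.arccos_le_pi _
    have hψφ : ψ ≤ Real.pi / (m + 1) := by
      by_contra h
      push Not at h
      have := Real.cos_lt_cos_of_nonneg_of_le_pi hφ0.le hψπ h
      rw [hcψ, div_lt_iff₀ han] at this
      linarith
    have hmψ : ((m : ℝ) + 1) * ψ ≤ Real.pi := by
      have := mul_le_mul_of_nonneg_left hψφ (show (0 : ℝ) ≤ (m : ℝ) + 1 by positivity)
      rwa [mul_div_cancel₀ _ (by positivity : ((m : ℝ) + 1) ≠ 0)] at this
    have e : P = (C 1 + C (2 * (1 / ‖a‖) * Real.cos ψ) * X + C ((1 / ‖a‖) ^ 2) * X ^ 2) *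
        (C (‖a‖ ^ 2) * Q) := by
      rw [hQ, ← mul_assoc]
      congr 1
      rw [hcψ]
      have h1 : (2 * (1 / ‖a‖) * (-a.re / ‖a‖)) * ‖a‖ ^ 2 = -(2 * a.re) := by
        field_simp
      have h2 : (1 / ‖a‖) ^ 2 * ‖a‖ ^ 2 = 1 := by
        field_simp
      rw [add_mul, add_mul, mul_right_comm, mul_right_comm (C ((1 / ‖a‖) ^ 2)), ← C_mul, ← C_mul, ← C_mul,
        h1, h2]
      simp only [map_neg, map_one, one_mul]
      ring
    rw [e, ← conv_coeff, quad_coeff, ← conv_coeff]
    refine (TP_quad (by positivity) hψ0 hm hmψ).conv ((TP_const (by positivity) m).conv hTQ)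

/-! ### Limits -/

theorem TP_limit {m : ℕ} {A : ℕ → ℕ → ℝ} {a : ℕ → ℝ} (hA : ∀ᶠ N in Filter.atTop, TP m (A N))
    (h : ∀ j, Filter.Tendsto (fun N => A N j) Filter.atTop (nhds (a j))) : TP m a := by
  intro k hk r c hr hc
  have ht : Filter.Tendsto (fun N => mnr (A N) r c) Filter.atTop (nhds (mnr a r c)) := by
    unfold mnr
    simp only [Matrix.det_apply']
    refine tendsto_finsetSum _ fun σ _ => Filter.Tendsto.const_mul _ ?_
    refine tendsto_finsetProd _ fun i _ => ?_
    simp only [Matrix.of_apply]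
    unfold ent
    split_ifs
    · exact h _
    · exact tendsto_const_nhds
  refine ge_of_tendsto ht ?_
  filter_upwards [hA] with N hN
  exact hN k hk r c hr hc

end Pool.Agent.TH809.TP
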