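import Pool.Agent.TH809.TP.Adm

set_option autoImplicit false

/-!
# Variation diminishing property
-/

namespace Pool.Agent.TH809.TP

open Matrix Finset Filter Topology

/-- the number of the block -/
def bet (Z : Finset ℕ) (j : ℕ) : ℕ := ((range j).filter (· ∉ Z)).card

theorem bet_zero (Z : Finset ℕ) : bet Z 0 = 0 := by simp [bet]

theorem bet_succ (Z : Finset ℕ) (j : ℕ) : bet Z (j + 1) = bet Z j + if j ∈ Z then 0 else 1 := by
  unfold bet
  rw [Finset.range_add_one, Finset.filter_insert]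
  by_cases h : j ∈ Z
  · simp [h]
  · rw [if_pos h, if_neg h, Finset.card_insert_of_notMem]
    simp

theorem bet_mono (Z : Finset ℕ) : Monotone (bet Z) := by
  apply monotone_nat_of_le_succ
  intro j
  rw [bet_succ]
  omega

theorem bet_add (Z : Finset ℕ) (j : ℕ) : bet Z j + ((range j).filter (· ∈ Z)).card = j := by
  unfold bet
  have := Finset.card_filter_add_card_filter_not (s := range j) (p := fun i => i ∈ Z)
  rw [Finset.card_range] at this
  omega

theorem bet_ge (Z : Finset ℕ) (j : ℕ) : j ≤ bet Z j + Z.card := by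
  have h1 := bet_add Z j
  have h2 : ((range j).filter (· ∈ Z)).card ≤ Z.card := by
    apply Finset.card_le_card
    intro i hi
    exact (Finset.mem_filter.1 hi).2
  omega

theorem bet_top {Z : Finset ℕ} {L : ℕ} (hL : ∀ j ∈ Z, j < L) : bet Z L + Z.card = L := by
  have h1 := bet_add Z L
  have h2 : (range L).filter (· ∈ Z) = Z := by
    ext i
    simp only [Finset.mem_filter, Finset.mem_range]
    exact ⟨fun h => h.2, fun h => ⟨hL i h, h⟩⟩
  rw [h2] at h1
  exact h1

theorem bet_surj (Z : Finset ℕ) : ∀ (L s : ℕ), s ≤ bet Z L → ∃ j ≤ L, bet Z j = s := by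
  intro L
  induction L with
  | zero =>
    intro s hs
    rw [bet_zero] at hs
    exact ⟨0, le_rfl, by rw [bet_zero]; omega⟩
  | succ L ih =>
    intro s hs
    by_cases h : s ≤ bet Z L
    · obtain ⟨j, hj, hb⟩ := ih s h
      exact ⟨j, by omega, hb⟩
    · refine ⟨L + 1, le_rfl, ?_⟩
      have h1 := bet_succ Z L
      split_ifs at h1 <;> omega

/-- on a block the signs are constant -/
theorem block_sign {v : ℕ → ℝ} (hv : ∀ j, v j ≠ 0) {Z : Finset ℕ} (hZ : ∀ j ∈ Z, 0 < v j * v (j + 1))
    (i : ℕ) : ∀ j, i ≤ j → bet Z i = bet Z j → 0 < v i * v j := by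
  intro j hij
  induction j, hij using Nat.le_induction with
  | base =>
    intro _
    exact mul_self_pos.2 (hv i)
  | succ j hij ih =>
    intro h
    have h1 := bet_mono Z hij
    have h2 := bet_succ Z j
    by_cases hj : j ∈ Z
    · rw [if_pos hj] at h2
      have h3 := ih (by omega)
      have h4 := hZ j hj
      have h5 : 0 < (v i * v j) * (v j * v (j + 1)) := mul_pos h3 h4
      have h6 : 0 < v j * v j := mul_self_pos.2 (hv j)
      have h7 : (v i * v j) * (v j * v (j + 1)) = (v j * v j) * (v i * v (j + 1)) := by ring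
      rw [h7] at h5
      exact (mul_pos_iff_of_pos_left h6).1 h5
    · rw [if_neg hj] at h2
      omega

/-- the block matrix -/
def blk (Z : Finset ℕ) (v : ℕ → ℝ) (L p : ℕ) : Matrix (Fin (L + 1)) (Fin p) ℝ :=
  Matrix.of fun j s => if bet Z j = s then |v j| else 0

theorem blk_sub (Z : Finset ℕ) (v : ℕ → ℝ) (L p : ℕ) (hp : ∀ j ≤ L, bet Z j < p)
    (t : Fin p → Fin (L + 1)) (ht : StrictMono t) :
    ((blk Z v L p).submatrix t id).det = if ∀ s, bet Z (t s) = s then ∏ s, |v (t s)| else 0 := by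
  split_ifs with h
  · have e : (blk Z v L p).submatrix t id = Matrix.diagonal fun s => |v (t s)| := by
      ext s s'
      simp only [Matrix.submatrix_apply, blk, Matrix.of_apply, id_eq, Matrix.diagonal_apply, h s]
      by_cases hs : s = s'
      · subst hs; simp
      · rw [if_neg (fun hh => hs (Fin.ext hh)), if_neg hs]
    rw [e, Matrix.det_diagonal]
  · -- some block is missed
    let g : Fin p → Fin p := fun s => ⟨bet Z (t s), hp _ (Nat.lt_succ_iff.1 (t s).2)⟩
    have hg : Monotone g := by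
      intro s s' hss
      show bet Z (t s) ≤ bet Z (t s')
      exact bet_mono Z (ht.monotone hss)
    have hns : ¬ Function.Surjective g := by
      intro hsur
      have hinj : Function.Injective g := Finite.injective_iff_surjective.2 hsur
      have hsm : StrictMono g := hg.strictMono_of_injective hinj
      have e : StrictMono.orderIsoOfSurjective g hsm hsur = OrderIso.refl (Fin p) :=
        Subsingleton.elim _ _
      apply h
      intro s
      have e2 : g s = s := by
        have := congrArg (fun F : Fin p ≃o Fin p => F s) e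
        simpa using this
      exact congrArg Fin.val e2
    rw [Function.Surjective] at hns
    push Not at hns
    obtain ⟨s', hs'⟩ := hns
    apply Matrix.det_eq_zero_of_column_eq_zero s'
    intro s
    simp only [Matrix.submatrix_apply, blk, Matrix.of_apply, id_eq]
    rw [if_neg]
    intro hh
    exact hs' s (Fin.ext hh)

theorem blk_nonneg (Z : Finset ℕ) (v : ℕ → ℝ) (L p : ℕ) (hp : ∀ j ≤ L, bet Z j < p)
    (t : Fin p → Fin (L + 1)) (ht : StrictMono t) : 0 ≤ ((blk Z v L p).submatrix t id).det := by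
  rw [blk_sub Z v L p hp t ht]
  split_ifs
  · exact Finset.prod_nonneg fun _ _ => abs_nonneg _
  · exact le_rfl

/-- the lower triangular Toeplitz matrix with rows `ρ` -/
def low (b : ℕ → ℝ) {k : ℕ} (ρ : Fin k → ℕ) (L : ℕ) : Matrix (Fin k) (Fin (L + 1)) ℝ :=
  Matrix.of fun i j => ent b j (ρ i)

theorem low_sub (b : ℕ → ℝ) {k : ℕ} (ρ : Fin k → ℕ) (L : ℕ) (t : Fin k → Fin (L + 1)) :
    ((low b ρ L).submatrix id t).det = mnr b (fun s => (t s : ℕ)) ρ := by
  unfold mnr
  rw [← Matrix.det_transpose]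
  rfl

theorem prod_nonneg' {b : ℕ → ℝ} (hb : ∀ m, TP m b) (Z : Finset ℕ) (v : ℕ → ℝ) (L p : ℕ)
    (hp : ∀ j ≤ L, bet Z j < p) (ρ : Fin p → ℕ) (hρ : StrictMono ρ) :
    0 ≤ (low b ρ L * blk Z v L p).det := by
  rw [Pool.Agent.H801R3.SB.cauchyBinet]
  refine mul_nonneg (by positivity) (Finset.sum_nonneg fun t _ => term_nonneg _ _ ?_ ?_ t)
  · intro t ht
    rw [low_sub]
    exact hb p p le_rfl _ _ (fun _ _ h => ht h) hρ
  · intro t ht
    exact blk_nonneg Z v L p hp t ht

theorem prod_pos' {b : ℕ → ℝ} (hb : ∀ m, TP m b) {K : ℕ}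
    (hadm : ∀ (k : ℕ) (r c : Fin k → ℕ), StrictMono r → StrictMono c →
      (∀ s, r s ≤ c s) → (∀ s, c s ≤ r s + K) → 0 < mnr b r c)
    {v : ℕ → ℝ} (hv : ∀ j, v j ≠ 0) (Z : Finset ℕ) (L p : ℕ)
    (hL : ∀ j ∈ Z, j < L) (hpL : p + Z.card = L + 1) (hp0 : 0 < p) (hKL : L ≤ K) :
    0 < (low b (fun s : Fin p => Z.card + s) L * blk Z v L p).det := by
  have htop := bet_top hL
  have hp : ∀ j ≤ L, bet Z j < p := by
    intro j hj
    have := bet_mono Z hj
    omega
  have hρ : StrictMono (fun s : Fin p => Z.card + (s : ℕ)) := by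
    intro s s' h
    have : (s : ℕ) < s' := h
    show Z.card + (s : ℕ) < Z.card + s'
    omega
  -- the transversal
  have hex : ∀ s : Fin p, ∃ j : ℕ, bet Z j = s := fun s => by
    obtain ⟨j, _, hj⟩ := bet_surj Z L s (by have := s.2; omega)
    exact ⟨j, hj⟩
  have hfind : ∀ s : Fin p, bet Z (Nat.find (hex s)) = s := fun s => Nat.find_spec (hex s)
  have hfind2 : ∀ s : Fin p, Nat.find (hex s) ≤ Z.card + s := by
    intro s
    by_contra hcon
    push Not at hcon
    have h1 := Nat.find_min (hex s) hcon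
    have h2 := bet_ge Z (Z.card + s)
    have h3 := bet_mono Z hcon.le
    rw [hfind s] at h3
    omega
  have hfindL : ∀ s : Fin p, Nat.find (hex s) < L + 1 := by
    intro s
    have h1 := hfind2 s
    have := s.2
    omega
  let t0 : Fin p → Fin (L + 1) := fun s => ⟨Nat.find (hex s), hfindL s⟩
  have ht0 : StrictMono t0 := by
    intro s s' h
    show Nat.find (hex s) < Nat.find (hex s')
    by_contra hcon
    push Not at hcon
    have h1 := bet_mono Z hcon
    rw [hfind s, hfind s'] at h1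
    exact absurd h (not_lt.2 h1)
  rw [Pool.Agent.H801R3.SB.cauchyBinet]
  refine mul_pos (by positivity) ?_
  refine Finset.sum_pos' (fun t _ => term_nonneg _ _ ?_ ?_ t) ⟨t0, Finset.mem_univ _, ?_⟩
  · intro t ht
    rw [low_sub]
    exact hb p p le_rfl _ _ (fun _ _ h => ht h) hρ
  · intro t ht
    exact blk_nonneg Z v L p hp t ht
  · apply mul_pos
    · rw [low_sub]
      refine hadm p _ _ (fun _ _ h => ht0 h) hρ (fun s => hfind2 s) fun s => ?_
      have := s.2
      show Z.card + (s : ℕ) ≤ Nat.find (hex s) + K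
      omega
    · rw [blk_sub Z v L p hp t0 ht0, if_pos (fun s => hfind s)]
      exact Finset.prod_pos fun s _ => abs_pos.2 (hv _)

/-- The variation diminishing property, for a strictly positive matrix. -/
theorem no_alt_adm {b : ℕ → ℝ} (hb : ∀ m, TP m b) {K : ℕ}
    (hadm : ∀ (k : ℕ) (r c : Fin k → ℕ), StrictMono r → StrictMono c →
      (∀ s, r s ≤ c s) → (∀ s, c s ≤ r s + K) → 0 < mnr b r c)
    {v : ℕ → ℝ} (hv : ∀ j, v j ≠ 0) (Z : Finset ℕ) (hZ : ∀ j ∈ Z, 0 < v j * v (j + 1))
    {L n0 : ℕ} (hZc : Z.card = n0 + 1) (hL : ∀ j ∈ Z, j < L) (hKL : L ≤ K) {τ : ℝ}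
    (halt : ∀ n, n0 ≤ n → n ≤ L → 0 < τ * (-1) ^ n * ∑ j ∈ range (n + 1), b (n - j) * v j) :
    False := by
  have htop := bet_top hL
  obtain ⟨p, hp⟩ : ∃ p, p = bet Z L + 1 := ⟨_, rfl⟩
  have hpL : p + Z.card = L + 1 := by omega
  have hp0 : 0 < p := by omega
  have hpb : ∀ j ≤ L, bet Z j < p := by
    intro j hj
    have := bet_mono Z hj
    omega
  -- the signs of the blocks
  have hex : ∀ s : ℕ, s < p → ∃ j : ℕ, j ≤ L ∧ bet Z j = s := fun s hs => by
    obtain ⟨j, hj1, hj⟩ := bet_surj Z L s (by omega)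
    exact ⟨j, hj1, hj⟩
  choose! rep hrepL hrep using hex
  have hsign : ∀ j ≤ L, v j = (v (rep (bet Z j)) / |v (rep (bet Z j))|) * |v j| := by
    intro j hj
    have h1 := hrep (bet Z j) (hpb j hj)
    have h2 : 0 < v (rep (bet Z j)) * v j := by
      rcases le_total (rep (bet Z j)) j with h | h
      · exact block_sign hv hZ _ _ h h1
      · rw [mul_comm]
        exact block_sign hv hZ _ _ h h1.symm
    rcases lt_or_gt_of_ne (hv (rep (bet Z j))) with h3 | h3
    · have h4 : v j < 0 := by nlinarith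
      rw [abs_of_neg h3, abs_of_neg h4, div_neg, div_self h3.ne]
      ring
    · have h4 : 0 < v j := by nlinarith
      rw [abs_of_pos h3, abs_of_pos h4, div_self h3.ne', one_mul]
  obtain ⟨σ, hσ⟩ : ∃ σ : ℕ → ℝ, σ = fun s => v (rep s) / |v (rep s)| := ⟨_, rfl⟩
  -- the big matrix
  let ρ : Fin (p + 1) → ℕ := fun k => n0 + k
  let M : Matrix (Fin (p + 1)) (Fin p) ℝ := low b ρ L * blk Z v L p
  let y : Fin (p + 1) → ℝ := fun k => ∑ j : Fin (L + 1), ent b j (ρ k) * v j
  let N : Matrix (Fin (p + 1)) (Fin (p + 1)) ℝ := Matrix.of fun k => Fin.cons (y k) (M k)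
  have hy : ∀ k, y k = ∑ s : Fin p, M k s * σ s := by
    intro k
    show ∑ j : Fin (L + 1), ent b j (ρ k) * v j = ∑ s : Fin p, (low b ρ L * blk Z v L p) k s * σ s
    simp only [Matrix.mul_apply, Finset.sum_mul]
    rw [Finset.sum_comm]
    refine Finset.sum_congr rfl fun j _ => ?_
    have hjL : (j : ℕ) ≤ L := Nat.lt_succ_iff.1 j.2
    rw [Finset.sum_eq_single (⟨bet Z j, hpb j hjL⟩ : Fin p)]
    · simp only [low, blk, Matrix.of_apply, if_pos rfl]
      have h1 := hsign j hjL
      rw [hσ]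
      simp only [mul_assoc]
      congr 1
      rw [mul_comm]
      exact h1
    · intro s _ hs
      simp only [low, blk, Matrix.of_apply]
      rw [if_neg (fun hh => hs (Fin.ext hh.symm))]
      ring
    · intro h
      exact absurd (Finset.mem_univ _) h
  have hdet : N.det = 0 := by
    rw [← Matrix.exists_mulVec_eq_zero_iff]
    refine ⟨Fin.cons 1 (fun s : Fin p => -σ s), ?_, ?_⟩
    · intro h
      have := congrFun h 0
      simp at this
    · ext k
      simp only [Matrix.mulVec, dotProduct, Fin.sum_univ_succ, N, Matrix.of_apply, Fin.cons_zero,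
        Fin.cons_succ, Pi.zero_apply, mul_one]
      rw [hy k]
      simp only [mul_neg, Finset.sum_neg_distrib]
      ring
  have hyalt : ∀ k : Fin (p + 1), 0 < τ * (-1) ^ n0 * ((-1) ^ (k : ℕ) * y k) := by
    intro k
    have hk := k.2
    have h1 := halt (n0 + k) (by omega) (by omega)
    have h2 : ∑ j ∈ range (n0 + k + 1), b (n0 + k - j) * v j = y k := by
      show _ = ∑ j : Fin (L + 1), ent b j (n0 + k) * v j
      rw [Fin.sum_univ_eq_sum_range (fun j => ent b j (n0 + k) * v j) (L + 1)]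
      symm
      have h3 : range (n0 + (k : ℕ) + 1) ⊆ range (L + 1) := by
        intro i hi
        rw [Finset.mem_range] at *
        omega
      rw [← Finset.sum_subset h3]
      · refine Finset.sum_congr rfl fun j hj => ?_
        rw [Finset.mem_range] at hj
        unfold ent
        rw [if_pos (by omega)]
      · intro j _ hj
        rw [Finset.mem_range] at hj
        unfold ent
        rw [if_neg (by omega), zero_mul]
    rw [h2, pow_add] at h1
    calc 0 < _ := h1
      _ = _ := by ring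
  have hexp : N.det = ∑ i : Fin (p + 1), (-1) ^ (i : ℕ) * y i * (M.submatrix i.succAbove id).det := by
    rw [Matrix.det_succ_column_zero]
    refine Finset.sum_congr rfl fun i _ => ?_
    congr 1
  have hmin : ∀ i : Fin (p + 1), 0 ≤ (M.submatrix i.succAbove id).det := by
    intro i
    have e : M.submatrix i.succAbove id = low b (ρ ∘ i.succAbove) L * blk Z v L p := by
      ext a c
      simp [M, Matrix.mul_apply, low]
    rw [e]
    apply prod_nonneg' hb Z v L p hpb
    intro s s' h
    have h3 : i.succAbove s < i.succAbove s' := Fin.strictMono_succAbove i h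
    have h4 : ((i.succAbove s : Fin (p + 1)) : ℕ) < (i.succAbove s' : Fin (p + 1)) := h3
    show n0 + ((i.succAbove s : Fin (p + 1)) : ℕ) < n0 + ((i.succAbove s' : Fin (p + 1)) : ℕ)
    omega
  have hmin0 : 0 < (M.submatrix (Fin.succAbove 0) id).det := by
    have e : M.submatrix (Fin.succAbove 0) id =
        low b (fun s : Fin p => Z.card + s) L * blk Z v L p := by
      ext a c
      simp only [M, Matrix.mul_apply, low, Matrix.submatrix_apply, Matrix.of_apply, id_eq,
        Fin.succAbove_zero, ρ, Fin.val_succ, hZc]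
      refine Finset.sum_congr rfl fun j _ => ?_
      rw [show n0 + ((a : ℕ) + 1) = n0 + 1 + a by ring]
    rw [e]
    exact prod_pos' hb hadm hv Z L p hL hpL hp0 hKL
  have hpos : 0 < τ * (-1) ^ n0 * N.det := by
    rw [hexp, Finset.mul_sum]
    refine Finset.sum_pos' (fun i _ => ?_) ⟨0, Finset.mem_univ _, ?_⟩
    · rw [← mul_assoc]
      exact mul_nonneg (hyalt i).le (hmin i)
    · rw [← mul_assoc]
      exact mul_pos (hyalt 0) hmin0
  rw [hdet, mul_zero] at hpos
  exact lt_irrefl _ hpos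

/-- The variation diminishing property. -/
theorem no_alt {a : ℕ → ℝ} (ha : ∀ m, TP m a) (ha0 : 0 < a 0)
    {v : ℕ → ℝ} (hv : ∀ j, v j ≠ 0) (Z : Finset ℕ) (hZ : ∀ j ∈ Z, 0 < v j * v (j + 1))
    {n0 : ℕ} (hZc : Z.card = n0 + 1) {τ : ℝ}
    (halt : ∀ n, n0 ≤ n → 0 < τ * (-1) ^ n * ∑ j ∈ range (n + 1), a (n - j) * v j) :
    False := by
  obtain ⟨L, hL⟩ : ∃ L : ℕ, ∀ j ∈ Z, j < L := by
    refine ⟨Z.sup id + 1, fun j hj => ?_⟩
    have := Finset.le_sup (f := id) hj
    exact Nat.lt_succ_iff.2 this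
  have h1 : ∀ n, n0 ≤ n → ∀ᶠ ε in 𝓝[>] (0 : ℝ),
      0 < τ * (-1) ^ n * ∑ j ∈ range (n + 1), sm a ε L (n - j) * v j := by
    intro n hn
    have h2 : Tendsto (fun ε => τ * (-1) ^ n * ∑ j ∈ range (n + 1), sm a ε L (n - j) * v j) (𝓝[>] 0)
        (𝓝 (τ * (-1) ^ n * ∑ j ∈ range (n + 1), a (n - j) * v j)) :=
      (tendsto_finsetSum _ fun j _ => (sm_tendsto a L (n - j)).mul_const _).const_mul _
    exact h2.eventually (lt_mem_nhds (halt n hn))
  have h3 : ∀ᶠ ε in 𝓝[>] (0 : ℝ), ∀ n ∈ Finset.Icc n0 L,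
      0 < τ * (-1) ^ n * ∑ j ∈ range (n + 1), sm a ε L (n - j) * v j := by
    rw [Finset.eventually_all]
    intro n hn
    exact h1 n (Finset.mem_Icc.1 hn).1
  obtain ⟨ε, hε, hε0⟩ := (h3.and self_mem_nhdsWithin).exists
  have hε0' : 0 < ε := hε0
  exact no_alt_adm (fun m => sm_TP ha hε0'.le L m) (sm_pos ha ha0 hε0' L) hv Z hZ hZc hL le_rfl
    (τ := τ) fun n hn hnL => hε n (Finset.mem_Icc.2 ⟨hn, hnL⟩)

end Pool.Agent.TH809.TP
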